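import Pool.Agent.H67R.Two
import Pool.Agent.N667.PQ.Ns
import Pool.Agent.N667.PQ.P3

/-!
# The relaxed groups at the base: no condition at some of the primes in `J`
-/

set_option autoImplicit false
set_option linter.all false

open Polynomial IsDedekindDomain NumberField Module
open scoped Classical IntermediateField

namespace Pool.Agent.H67R

open Pool.Agent.N922.PQ
open Pool.Agent.H30EV
open Pool.Agent.H30GR
open Pool.Agent.N874.PP (Tup chA chB gq tau Two Ev Sq1 U0)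
open Pool.Agent.N667.PQ (parity exists_theta ov_iff crd_iff isInt)
open Pool.Agent.N862.PP (cn cn_prod)

section par

variable {L : Type} [Field L] [NumberField L] {a b : ℤ} {θ : L}

open Pool.Agent.N667.PQ in
/-- The parity at the prime of degree one over `Q`. -/
theorem par_q (hI : S_INT) (h : IsCub a b θ) (hsq : Squarefree (dsc a b)) {Q : ℤ} (hQ : Prime Q)
    (hQb : Q ∣ b) (hns : ∀ z : ℤ, ¬ Q ∣ z ^ 2 + a) {x : L} (hx : x ≠ 0)
    (hnx : IsSquare (Algebra.norm ℚ x)) {𝔓 : HeightOneSpectrum (𝓞 L)} (hov : Ov Q 𝔓)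
    (hθ : 𝔓.valuation L θ < 1) : Ev 𝔓 x := by
  obtain ⟨t, ht, htr⟩ := exists_theta (O := 𝓞 L) h
  have hfin : Module.Finite ℤ (𝓞 L) := fin_O (L := L) hI h hsq
  have htf : Module.IsTorsionFree ℤ (𝓞 L) := tf_O (L := L)
  have ht1 : t ∈ 𝔓.asIdeal := by
    rw [← 𝔓.valuation_lt_one_iff_mem (K := L)]
    change 𝔓.valuation L (algebraMap (𝓞 L) L t) < 1
    rw [ht]
    exact hθ
  have h1 : 𝔓.asIdeal = J1 Q t := by
    rcases eq_J hI h hsq hQ hQb hns ht htr hov with h' | h'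
    · exact h'.2
    · exact absurd ht1 h'.1
  have hQ0 : algebraMap ℤ (𝓞 L) Q ≠ 0 := by
    intro h0
    exact hQ.ne_zero (algO_inj (L := L) (by rw [h0, map_zero]))
  have hb1 : (J1 Q t : Ideal (𝓞 L)) ≠ ⊥ := fun h0 => hQ0 (by
    have := Q_mem_J1 (O := 𝓞 L) Q t
    rwa [h0, Ideal.mem_bot] at this)
  have hb2 : (J2 Q a t : Ideal (𝓞 L)) ≠ ⊥ := fun h0 => hQ0 (by
    have := Q_mem_J2 (O := 𝓞 L) Q a t
    rwa [h0, Ideal.mem_bot] at this)
  have hc1 : cn ℤ (Ideal.span {Q}) (J1 Q t) = 1 := by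
    have := cn_deg_one (𝔓 := 𝔓) (c := 0) h hsq hQ hov ht (by
      rw [map_zero, sub_zero]
      exact ht1)
    rwa [h1] at this
  have hc2 : cn ℤ (Ideal.span {Q}) (J2 Q a t) = 2 := by
    have h2 := cn_prod (R := ℤ) (Ideal.span {Q}) ({J1 Q t, J2 Q a t} : Multiset (Ideal (𝓞 L))) (by
      intro I hI'
      simp only [Multiset.insert_eq_cons, Multiset.mem_cons, Multiset.mem_singleton] at hI'
      rcases hI' with rfl | rfl
      · exact hb1
      · exact hb2)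
    have h3 := cn_three (L := L) (O := 𝓞 L) h hQ
    have h4 : ({J1 Q t, J2 Q a t} : Multiset (Ideal (𝓞 L))).prod = J1 Q t * J2 Q a t := by simp
    rw [h4, J1_mul_J2_eq hI h hsq hQ hQb hns ht htr, h3] at h2
    simp only [Multiset.insert_eq_cons, Multiset.map_cons, Multiset.map_singleton,
      Multiset.sum_cons, Multiset.sum_singleton, hc1] at h2
    omega
  refine parity h hQ 𝔓 hov (by rw [h1, hc1]; exact odd_one) hx hnx fun 𝔓' ho hne => Or.inr ?_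
  rcases eq_J hI h hsq hQ hQb hns ht htr ho with h' | h'
  · exact absurd (HeightOneSpectrum.ext (h'.2.trans h1.symm)) hne
  · rw [h'.2, hc2]
    exact even_two

/-- A covering from invariants. -/
theorem cov_of {L : Type} [Field L] [NumberField L] {α : Type} {C : L → Prop} (E : Finset α)
    (p : α → L → Prop)
    (h : ∀ x y : L, x ≠ 0 → y ≠ 0 → C x → C y → IsSquare (Algebra.norm ℚ x) →
      IsSquare (Algebra.norm ℚ y) → (∀ i ∈ E, (p i x ↔ p i y)) → IsSquare (x * y)) :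
    Cov ℚ L C (2 ^ E.card) := by
  let P : Finset α → L → Prop := fun t x =>
    x ≠ 0 ∧ C x ∧ IsSquare (Algebra.norm ℚ x) ∧ (E.filter fun i => p i x) = t
  let g : Finset α → L := fun t => if h : ∃ x, P t x then h.choose else 0
  refine ⟨E.powerset.image g, ?_, fun x hx hCx hN => ?_⟩
  · refine Finset.card_image_le.trans ?_
    rw [Finset.card_powerset]
  · obtain ⟨t, ht⟩ : ∃ t, t = E.filter fun i => p i x := ⟨_, rfl⟩
    have hex : ∃ x, P t x := ⟨x, hx, hCx, hN, ht.symm⟩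
    have hg : P t (g t) := by
      simp only [g, dif_pos hex]
      exact hex.choose_spec
    obtain ⟨g0, g1, g2, g3⟩ := hg
    refine ⟨g t, Finset.mem_image_of_mem _ (Finset.mem_powerset.2 ?_), g0, ?_⟩
    · rw [ht]
      exact Finset.filter_subset _ _
    refine h x (g t) hx g0 hCx g1 hN g2 fun i hi => ?_
    have h1 : (i ∈ E.filter fun i => p i x) ↔ (i ∈ E.filter fun i => p i (g t)) := by
      rw [g3, ht]
    rw [Finset.mem_filter, Finset.mem_filter] at h1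
    tauto

end par

section base

variable {L : Type} [Field L] [NumberField L] {a b : ℤ} {θ : L} {X : ℕ} {S T J : Finset ℤ}
  {s A B : ℤ → ℤ}

/-- The condition at `Q` in `J`. -/
def TQ (θ : L) (Q : ℤ) (x : L) : Prop :=
  ∀ 𝔓 : HeightOneSpectrum (𝓞 L), Ov Q 𝔓 → 𝔓.valuation L θ = 1 → U0 𝔓 ((Q : L) * θ) x

/-- The relaxed Selmer group at the base, with no condition at the primes in `J` which are not in
`J'`, and no condition at `2` if `u` is not empty. -/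
theorem base_covJ (H : Parts2) (hI : S_INT) (hc : IsCub a b θ) (ha4 : a % 4 = 3) (hb4 : b % 4 = 3)
    (hS : GoodS S s) (hT : GoodT T A B) (hF : Fam X S s T A B a b) (hJ : J ⊆ S)
    (hsel : HSel a b J θ) {J' : Finset ℤ} (hJ' : J' ⊆ J) {R : Finset ℕ} (hR : ∀ l ∈ R, l.Prime)
    (u : Finset Unit) :
    Cov ℚ L (fun x => Cs (𝓞 L) J' (irr a b ∪ zs R ∪ ((J \ J' : Finset ℤ) : Set ℤ)) θ x ∧
      (u = ∅ → Loc2 a b θ x)) (2 ^ (u.card + (dm a b R + (J \ J').card))) := by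
  choose! D hD1 hD2 using fun l (hl : l ∈ R) => prime_data (L := L) hI hc hF.sq (hR l hl)
  let E1 := R.biUnion D
  have hE1 : E1.card ≤ dm a b R := by
    refine Finset.card_biUnion_le.trans ?_
    refine Finset.sum_le_sum fun l hl => ?_
    exact Nat.le_log_of_pow_le (by norm_num) (hD1 l hl)
  let E : Finset (HeightOneSpectrum (𝓞 L) ⊕ (ℤ ⊕ Unit)) := E1.disjSum ((J \ J').disjSum u)
  have hE : E.card ≤ u.card + (dm a b R + (J \ J').card) := by
    simp only [E, Finset.card_disjSum]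
    omega
  let p : (HeightOneSpectrum (𝓞 L) ⊕ (ℤ ⊕ Unit)) → L → Prop := fun i x =>
    Sum.elim (fun 𝔓 => Ev 𝔓 x) (Sum.elim (fun Q => TQ θ Q x) (fun _ => Loc2 a b θ x)) i
  have hcls : ∀ Q ∈ J, Prime Q ∧ ¬ Q ∣ 2 := fun Q hQ => ⟨(hS Q (hJ hQ)).1.2,
        not_dvd_two (hS Q (hJ hQ)).2.1 (hS Q (hJ hQ)).1.1 (hS Q (hJ hQ)).1.2⟩
  have hodd : ∀ Q ∈ J, ∀ 𝔓 : HeightOneSpectrum (𝓞 L), Ov Q 𝔓 → 𝔓.valuation L θ = 1 →
      ¬ Ev 𝔓 ((Q : L) * θ) := by
    intro Q hQ 𝔓 h1 h2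
    obtain ⟨𝔓₁, 𝔮, h3, h4, h5, h7, h8, h9⟩ := H.p.exq L (𝓞 L) a b θ hc hF.sq Q
      (hS Q (hJ hQ)).1.2 (hF.rb Q (hJ hQ)) (fam_ns hS hF (hJ hQ))
    rcases h9 𝔓 h1 with h | h
    · rw [h] at h2
      exact absurd h2 h5.ne
    · rw [h]
      exact h8
  have hθ0 : θ ≠ 0 := by
    rintro rfl
    have h1 := hc.root
    have hb0 : b = 0 := by
      have : (b : L) = 0 := by linear_combination h1
      exact_mod_cast this
    omega
  have key := cov_of (L := L) (C := fun x => Cs (𝓞 L) J' (irr a b ∪ zs R ∪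
      ((J \ J' : Finset ℤ) : Set ℤ)) θ x ∧ (u = ∅ → Loc2 a b θ x)) E p ?_
  · obtain ⟨Z, hZ, h⟩ := key
    exact ⟨Z, hZ.trans (Nat.pow_le_pow_right (by norm_num) hE), h⟩
  rintro x y hx hy ⟨hCx, hux⟩ ⟨hCy, huy⟩ hNx hNy hp
  have hxy : x * y ≠ 0 := mul_ne_zero hx hy
  have hNxy : IsSquare (Algebra.norm ℚ (x * y)) := by
    rw [map_mul]
    exact hNx.mul hNy
  have hCxy := cs_mul H.p.cls (O' := 𝓞 L) (J := J') (T := irr a b ∪ zs R ∪
    ((J \ J' : Finset ℤ) : Set ℤ)) (fun Q hQ => hcls Q (hJ' hQ))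
    (fun Q hQ 𝔓 h1 h2 => hodd Q (hJ' hQ) 𝔓 h1 h2) hx hy hCx hCy
  refine hsel (x * y) hxy hNxy ?_ (fun 𝔓 h𝔓 => ?_) (fun Q hQ 𝔓 h1 h2 => ?_)
    (fun Q hQ 𝔓 h1 h2 => ?_)
  · -- the place `2`
    have hmul : Loc2 a b θ x → Loc2 a b θ y → Loc2 a b θ (x * y) := fun h h' =>
      loc2_mul H.p.plm hc (fam_nt hT hF hT.1) h h'
    by_cases hu : u = ∅
    · exact hmul (hux hu) (huy hu)
    · obtain ⟨i, hi⟩ := Finset.nonempty_iff_ne_empty.2 hu
      have h1 : Loc2 a b θ x ↔ Loc2 a b θ y := hp (Sum.inr (Sum.inr i)) (by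
        simp only [E, Finset.inr_mem_disjSum]
        exact hi)
      by_cases h2 : Loc2 a b θ x
      · exact hmul h2 (h1.1 h2)
      · rcases loc2_or hc ha4 hb4 hx hy hNx hNy with h | h | h
        · exact absurd h h2
        · exact absurd (h1.2 h) h2
        · exact h
  · by_cases h1 : ∃ P ∈ irr a b, Ov P 𝔓
    · obtain ⟨P, hP, hPv⟩ := h1
      exact H.p.p3 L (𝓞 L) a b θ hc hF.sq P hP.1.2 hP.2 (x * y) hxy hNxy 𝔓 hPv
    by_cases h2 : ∃ l ∈ R, Ov (l : ℤ) 𝔓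
    · obtain ⟨l, hl, hlv⟩ := h2
      refine hD2 l hl (x * y) hxy hNxy (fun 𝔓' h𝔓' => ?_) 𝔓 hlv
      refine ev_mul_iff 𝔓' hx hy ?_
      exact hp (Sum.inl 𝔓') (by
        simp only [E, Finset.inl_mem_disjSum]
        exact Finset.mem_biUnion.2 ⟨l, hl, h𝔓'⟩)
    refine hCxy.ev 𝔓 (fun P hP hPv => ?_) fun Q hQ => h𝔓 Q (hJ' hQ)
    rcases hP with (hP | ⟨l, hl, rfl⟩) | hP
    · exact h1 ⟨P, hP, hPv⟩
    · exact h2 ⟨l, hl, hPv⟩
    · exact h𝔓 P (Finset.mem_sdiff.1 (Finset.mem_coe.1 hP)).1 hPv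
  · by_cases hQ' : Q ∈ J'
    · exact hCxy.u0 Q hQ' 𝔓 h1 h2
    · have h3 : TQ θ Q x ↔ TQ θ Q y := hp (Sum.inr (Sum.inl Q)) (by
        simp only [E, Finset.inr_mem_disjSum, Finset.inl_mem_disjSum]
        exact Finset.mem_sdiff.2 ⟨hQ, hQ'⟩)
      obtain ⟨𝔓₁, 𝔮, g3, g4, g5, g7, g8, g9⟩ := H.p.exq L (𝓞 L) a b θ hc hF.sq Q
        (hS Q (hJ hQ)).1.2 (hF.rb Q (hJ hQ)) (fam_ns hS hF (hJ hQ))
      have h4 : ∀ z, TQ θ Q z ↔ U0 𝔓 ((Q : L) * θ) z := by
        intro z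
        refine ⟨fun h => h 𝔓 h1 h2, fun h 𝔓' h5 h6 => ?_⟩
        have e1 : 𝔓 = 𝔮 := by
          rcases g9 𝔓 h1 with h | h
          · rw [h] at h2
            exact absurd h2 g5.ne
          · exact h
        have e2 : 𝔓' = 𝔮 := by
          rcases g9 𝔓' h5 with h | h
          · rw [h] at h6
            exact absurd h6 g5.ne
          · exact h
        rw [e2, ← e1]
        exact h
      have hQθ : (Q : L) * θ ≠ 0 := by
        refine mul_ne_zero ?_ hθ0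
        exact_mod_cast (hcls Q hQ).1.ne_zero
      rw [((H.p.cls L (𝓞 L) Q 𝔓 ((Q : L) * θ) (hcls Q hQ).1 (hcls Q hQ).2 h1 hQθ
        (hodd Q hQ 𝔓 h1 h2)) x y hx hy).2, ← h4, ← h4]
      exact h3
  · by_cases hQ' : Q ∈ J'
    · exact hCxy.eq Q hQ' 𝔓 h1 h2
    · exact par_q hI hc hF.sq (hcls Q hQ).1 (hF.rb Q (hJ hQ)) (fam_ns hS hF (hJ hQ)) hxy hNxy h1 h2

end base

end Pool.Agent.H67R
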