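import Pool.Agent.H30GR.SelC
import Pool.Agent.N721.PP.GF
import Pool.Agent.N650.PM.GFR
import Pool.Agent.N187.PP.GN
import Pool.Agent.N630.PP.GP

/-!
# The map `P ↦ x(P) - θ` on the points over `F`
-/

set_option autoImplicit false
set_option linter.all false

open Polynomial WeierstrassCurve WeierstrassCurve.Affine
open Pool.Agent.TH115.GD
open scoped Classical

namespace Pool.Agent.H67R

open Pool.Agent.N874.PP (sW IsBeta Rt sg rr)
open Pool.Agent.N630.PP (gp1 gp2 gp3 gp4)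
open Pool.Agent.N187.PP (exists_roots minpoly_eq exists_poly gn gt sg_mul_self rt_iff)
open Pool.Agent.H30GR (coc_sub beta_sub)

section

variable {F : Type} [Field F] {A B : F}

theorem poly_eq (hirr : Irreducible (X ^ 3 + C A * X + C B : F[X])) {t : Sep F} (ht : Rt A B t)
    {Ω : Type} [Field Ω] [Algebra F Ω] {θ : Ω} (hθ : Rt A B θ) {p q : F[X]}
    (h : aeval t p = aeval t q) : aeval θ p = aeval θ q := by
  have h1 : X ^ 3 + C A * X + C B ∣ p - q := by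
    rw [← minpoly_eq hirr ht]
    apply minpoly.dvd
    rw [map_sub, h, sub_self]
  obtain ⟨r, hr⟩ := h1
  have h2 : aeval θ (p - q) = 0 := by
    rw [hr, map_mul, (rt_iff θ).1 hθ, zero_mul]
  rw [map_sub] at h2
  exact sub_eq_zero.1 h2

theorem half_beta (h6 : (6 : F) ≠ 0) (hd : 4 * A ^ 3 + 27 * B ^ 2 ≠ 0)
    (hnr : ∀ u : F, u ^ 3 + A * u + B ≠ 0) {x y : F}
    {h : ((sW A B).baseChange F).toAffine.Nonsingular x y} {Q : Pt (sW A B) (Sep F)}
    (hQ : (2 : ℕ) • Q = act (sW A B) (incl F F (Sep F)) (Point.some x y h)) :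
    IsBeta A B (fun σ => act (sW A B) (rs F σ) Q - Q) (fun t => rr t Q) ∧
    (∀ t : Sep F, Rt A B t → rr t Q ^ 2 = algebraMap F (Sep F) x - t) ∧
    (∀ σ : Sep F ≃ₐ[F] Sep F, (2 : ℕ) • (act (sW A B) (rs F σ) Q - Q) = 0) := by
  have h2Q : (2 : ℕ) • Q ≠ 0 := by
    rw [hQ]
    exact Point.some_ne_zero _
  obtain ⟨x', y', h', h1, hrr⟩ := gp1 F (Sep F) A B h6 hd Q h2Q
  have hx' : x' = algebraMap F (Sep F) x := by
    have h3 : (Point.some x' y' h' : Pt (sW A B) (Sep F)) =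
        act (sW A B) (incl F F (Sep F)) (Point.some x y h) := h1.symm.trans hQ
    obtain ⟨h'', h4⟩ : ∃ h'', (act (sW A B) (incl F F (Sep F)) (Point.some x y h) :
      Pt (sW A B) (Sep F)) = Point.some (algebraMap F (Sep F) x) (algebraMap F (Sep F) y) h'' :=
      ⟨_, rfl⟩
    rw [h4] at h3
    injection h3
  rw [hx'] at hrr
  have h2f : ∀ σ : Sep F ≃ₐ[F] Sep F, (2 : ℕ) • (act (sW A B) (rs F σ) Q - Q) = 0 := by
    intro σ
    rw [nsmul_sub, ← map_nsmul, hQ, rs_act_incl, sub_self]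
  refine ⟨?_, hrr, h2f⟩
  intro t ht
  refine ⟨fun h0 => ?_, fun σ => ?_⟩
  · have h3 := hrr t ht
    have h0' : rr t Q = 0 := h0
    rw [h0', zero_pow two_ne_zero] at h3
    have h4 : t = algebraMap F (Sep F) x := (sub_eq_zero.1 h3.symm).symm
    have h5 : t ^ 3 + algebraMap F (Sep F) A * t + algebraMap F (Sep F) B = 0 := ht
    rw [h4, ← map_pow, ← map_mul, ← map_add, ← map_add] at h5
    exact hnr x ((map_eq_zero _).1 h5)
  · have h3 := (gp4 F (Sep F) (Sep F) A B (rs F σ) Q t).2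
    have h4 : (rs F σ : Sep F →ₐ[F] Sep F) t = σ t := rfl
    have h5 : (rs F σ : Sep F →ₐ[F] Sep F) (rr t Q) = σ (rr t Q) := rfl
    rw [h4, h5] at h3
    show σ (rr t Q) = sg (act (sW A B) (rs F σ) Q - Q) (σ t) * rr (σ t) Q
    have ht' : Rt A B (σ t) := by
      have h6' := congrArg σ (show t ^ 3 + algebraMap F (Sep F) A * t + algebraMap F (Sep F) B = 0
        from ht)
      rw [map_zero, map_add, map_add, map_mul, map_pow, σ.commutes, σ.commutes] at h6'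
      exact h6'
    have h7 := gp2 F (Sep F) A B h6 hd Q (act (sW A B) (rs F σ) Q - Q) h2Q (h2f σ) (σ t) ht'
    rw [add_sub_cancel] at h7
    rw [← h3, h7]

theorem half_ex (h6 : (6 : F) ≠ 0) (hd : 4 * A ^ 3 + 27 * B ^ 2 ≠ 0) (P : Pt (sW A B) F) :
    ∃ Q : Pt (sW A B) (Sep F), (2 : ℕ) • Q = act (sW A B) (incl F F (Sep F)) P := by
  obtain ⟨Q, hQ⟩ := Pool.Agent.N721.PP.half h6 hd (act (sW A B) (incl F F (Sep F)) P)
  exact ⟨Q, by rw [two_nsmul]; exact hQ⟩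

variable {Ω : Type} [Field Ω] [Algebra F Ω] {θ : Ω}

/-- Points with the same class differ by a double. -/
theorem kerA (h6 : (6 : F) ≠ 0) (hd : 4 * A ^ 3 + 27 * B ^ 2 ≠ 0)
    (hirr : Irreducible (X ^ 3 + C A * X + C B : F[X])) (hnr : ∀ u : F, u ^ 3 + A * u + B ≠ 0)
    (hθ : Rt A B θ) (hΩ : Module.finrank F Ω = 3) {x y x' y' : F}
    {h : ((sW A B).baseChange F).toAffine.Nonsingular x y}
    {h' : ((sW A B).baseChange F).toAffine.Nonsingular x' y'}
    (hsq : IsSquare ((algebraMap F Ω x - θ) * (algebraMap F Ω x' - θ))) :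
    ∃ R : Pt (sW A B) F, (Point.some x y h : Pt (sW A B) F) - Point.some x' y' h' = (2 : ℕ) • R := by
  obtain ⟨Q, hQ⟩ := half_ex h6 hd (Point.some x y h)
  obtain ⟨Q', hQ'⟩ := half_ex h6 hd (Point.some x' y' h')
  obtain ⟨b1, b2, b3⟩ := half_beta h6 hd hnr hQ
  obtain ⟨c1, c2, c3⟩ := half_beta h6 hd hnr hQ'
  obtain ⟨T, hT, hT2⟩ := gt gp3 gp4 F A B h6 hd hirr
    (fun σ => (act (sW A B) (rs F σ) Q - Q) - (act (sW A B) (rs F σ) Q' - Q'))
    (coc_sub (cob_isCoc (K := F) (F := F) (Ω := Sep F) (sW A B) Q)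
      (cob_isCoc (K := F) (F := F) (Ω := Sep F) (sW A B) Q'))
    (fun σ => by rw [nsmul_sub, b3, c3, sub_zero])
    (fun t => rr t Q * rr t Q') ((C x - X) * (C x' - X)) (beta_sub h6 hd hirr b3 c3 b1 c1)
    (fun t ht => by
      rw [map_mul, map_sub, map_sub, aeval_C, aeval_C, aeval_X, mul_pow, b2 t ht, c2 t ht])
    Ω θ hθ hΩ (by
      rw [map_mul, map_sub, map_sub, aeval_C, aeval_C, aeval_X]
      exact hsq)
  obtain ⟨R, hR⟩ := fixed_point (K := F) (F := F) (sW A B) (Q - Q' - T) (fun σ => by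
    rw [map_sub, map_sub]
    have := hT2 σ
    have e : act (sW A B) (rs F σ) Q - act (sW A B) (rs F σ) Q' - act (sW A B) (rs F σ) T -
        (Q - Q' - T) = (act (sW A B) (rs F σ) Q - Q) - (act (sW A B) (rs F σ) Q' - Q') -
          (act (sW A B) (rs F σ) T - T) := by abel
    rw [← sub_eq_zero, e, this, sub_self])
  refine ⟨R, ?_⟩
  apply act_inj (sW A B) (incl F F (Sep F))
  rw [map_sub, map_nsmul, hR, nsmul_sub, nsmul_sub, hT, sub_zero, hQ, hQ']

/-- Points with trivial class are doubles. -/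
theorem kerA1 (h6 : (6 : F) ≠ 0) (hd : 4 * A ^ 3 + 27 * B ^ 2 ≠ 0)
    (hirr : Irreducible (X ^ 3 + C A * X + C B : F[X])) (hnr : ∀ u : F, u ^ 3 + A * u + B ≠ 0)
    (hθ : Rt A B θ) (hΩ : Module.finrank F Ω = 3) {x y : F}
    {h : ((sW A B).baseChange F).toAffine.Nonsingular x y}
    (hsq : IsSquare (algebraMap F Ω x - θ)) :
    ∃ R : Pt (sW A B) F, (Point.some x y h : Pt (sW A B) F) = (2 : ℕ) • R := by
  obtain ⟨Q, hQ⟩ := half_ex h6 hd (Point.some x y h)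
  obtain ⟨b1, b2, b3⟩ := half_beta h6 hd hnr hQ
  obtain ⟨T, hT, hT2⟩ := gt gp3 gp4 F A B h6 hd hirr
    (fun σ => act (sW A B) (rs F σ) Q - Q)
    (cob_isCoc (K := F) (F := F) (Ω := Sep F) (sW A B) Q) b3
    (fun t => rr t Q) (C x - X) b1
    (fun t ht => by
      rw [map_sub, aeval_C, aeval_X, b2 t ht])
    Ω θ hθ hΩ (by
      rw [map_sub, aeval_C, aeval_X]
      exact hsq)
  obtain ⟨R, hR⟩ := fixed_point (K := F) (F := F) (sW A B) (Q - T) (fun σ => by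
    rw [map_sub]
    have := hT2 σ
    have e : act (sW A B) (rs F σ) Q - act (sW A B) (rs F σ) T -
        (Q - T) = (act (sW A B) (rs F σ) Q - Q) - (act (sW A B) (rs F σ) T - T) := by abel
    rw [← sub_eq_zero, e, this, sub_self])
  refine ⟨R, ?_⟩
  apply act_inj (sW A B) (incl F F (Sep F))
  rw [map_nsmul, hR, nsmul_sub, hT, sub_zero, hQ]

/-- Points which differ by a double have the same class. -/
theorem imB (h6 : (6 : F) ≠ 0) (hd : 4 * A ^ 3 + 27 * B ^ 2 ≠ 0)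
    (hirr : Irreducible (X ^ 3 + C A * X + C B : F[X])) (hnr : ∀ u : F, u ^ 3 + A * u + B ≠ 0)
    (hθ : Rt A B θ) {x y x' y' : F}
    {h : ((sW A B).baseChange F).toAffine.Nonsingular x y}
    {h' : ((sW A B).baseChange F).toAffine.Nonsingular x' y'} {R : Pt (sW A B) F}
    (hR : (Point.some x y h : Pt (sW A B) F) - Point.some x' y' h' = (2 : ℕ) • R) :
    IsSquare ((algebraMap F Ω x - θ) * (algebraMap F Ω x' - θ)) := by
  obtain ⟨Q', hQ'⟩ := half_ex h6 hd (Point.some x' y' h')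
  obtain ⟨Q, hQdef⟩ : ∃ Q, Q = Q' + act (sW A B) (incl F F (Sep F)) R := ⟨_, rfl⟩
  have hQ : (2 : ℕ) • Q = act (sW A B) (incl F F (Sep F)) (Point.some x y h) := by
    have e : (Point.some x y h : Pt (sW A B) F) = Point.some x' y' h' + (2 : ℕ) • R := by
      rw [← hR]
      abel
    rw [hQdef, nsmul_add, hQ', ← map_nsmul, ← map_add, e]
  obtain ⟨b1, b2, b3⟩ := half_beta h6 hd hnr hQ
  obtain ⟨c1, c2, c3⟩ := half_beta h6 hd hnr hQ'
  have hf : ∀ σ : Sep F ≃ₐ[F] Sep F, act (sW A B) (rs F σ) Q - Q = act (sW A B) (rs F σ) Q' - Q' := by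
    intro σ
    rw [hQdef, map_add, rs_act_incl]
    abel
  obtain ⟨t₁, t₂, t₃, n1, n2, n3, r1, r2, r3, -⟩ := exists_roots h6 hirr
  obtain ⟨p, hp⟩ := exists_poly (t := t₁) (x := rr t₁ Q * rr t₁ Q') (fun σ hσ => by
    have e1 := (b1 t₁ r1).2 σ
    have e2 := (c1 t₁ r1).2 σ
    have e1' : σ (rr t₁ Q) = sg (act (sW A B) (rs F σ) Q - Q) (σ t₁) * rr (σ t₁) Q := e1
    have e2' : σ (rr t₁ Q') = sg (act (sW A B) (rs F σ) Q' - Q') (σ t₁) * rr (σ t₁) Q' := e2
    have e3 := sg_mul_self (act (sW A B) (rs F σ) Q' - Q') t₁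
    rw [map_mul, e1', e2', hf, hσ]
    linear_combination (rr t₁ Q * rr t₁ Q') * e3)
  have h1 : aeval t₁ (p ^ 2) = aeval t₁ ((C x - X) * (C x' - X)) := by
    rw [map_pow, hp, map_mul, map_sub, map_sub, aeval_C, aeval_C, aeval_X, mul_pow, b2 t₁ r1,
      c2 t₁ r1]
  have h2 := poly_eq hirr r1 hθ h1
  rw [map_pow, map_mul, map_sub, map_sub, aeval_C, aeval_C, aeval_X] at h2
  exact ⟨aeval θ p, by rw [← h2, sq]⟩

/-- The class is not zero and has square norm. -/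
theorem normN (h6 : (6 : F) ≠ 0) (hd : 4 * A ^ 3 + 27 * B ^ 2 ≠ 0)
    (hirr : Irreducible (X ^ 3 + C A * X + C B : F[X])) (hnr : ∀ u : F, u ^ 3 + A * u + B ≠ 0)
    (hθ : Rt A B θ) (hΩ : Module.finrank F Ω = 3) {x y : F}
    (h : ((sW A B).baseChange F).toAffine.Nonsingular x y) :
    algebraMap F Ω x - θ ≠ 0 ∧ IsSquare (Algebra.norm F (algebraMap F Ω x - θ)) := by
  obtain ⟨Q, hQ⟩ := half_ex h6 hd (Point.some x y h)
  obtain ⟨b1, b2, b3⟩ := half_beta h6 hd hnr hQ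
  obtain ⟨p, hp1, hp2⟩ := gn gp3 gp4 F A B h6 hd hirr
    (fun σ => act (sW A B) (rs F σ) Q - Q)
    (cob_isCoc (K := F) (F := F) (Ω := Sep F) (sW A B) Q) b3 (fun t => rr t Q) b1
  obtain ⟨t₁, t₂, t₃, n1, n2, n3, r1, r2, r3, -⟩ := exists_roots h6 hirr
  have h1 : aeval t₁ p = aeval t₁ (C x - X) := by
    rw [hp1 t₁ r1, map_sub, aeval_C, aeval_X, b2 t₁ r1]
  have h2 := poly_eq hirr r1 hθ h1
  rw [map_sub, aeval_C, aeval_X] at h2
  have h3 := hp2 Ω θ hθ hΩ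
  rw [h2] at h3
  exact h3

end

end Pool.Agent.H67R
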