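import Pool.Agent.H67R.Desc
import Pool.Agent.H67R.BaseJ
import Pool.Agent.H67R.Pts
import Pool.Agent.H30GR.GoodR

/-!
# The invariants of the points modulo two
-/

set_option autoImplicit false
set_option linter.all false

open Polynomial IsDedekindDomain WeierstrassCurve WeierstrassCurve.Affine NumberField
open Pool.Agent.TH115.GD
open scoped Classical IntermediateField

namespace Pool.Agent.H67R

open Pool.Agent.N922.PQ
open Pool.Agent.H30EV
open Pool.Agent.H30GR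
open Pool.Agent.N692.PMTOW
open Pool.Agent.N874.PP (Tup chA chB gq tau Two Ev Sq1 U0 sW IsBeta Rt sg)
open Pool.Agent.N874.PM (PLoc Lies SelR ShaR)

/-- The invariants of `E(M) / 2 E(M)`, `E : y ^ 2 = x ^ 3 + A x + B`, are at most `2 ^ N`. -/
def InvBd (M : Type) [Field M] [NumberField M] (A B : ℤ) (N : ℕ) : Prop :=
  ∀ (m : ℕ) (P : Fin m → Pt (sW (A : ℚ) (B : ℚ)) M),
    (∀ i (g : M ≃ₐ[ℚ] M), ∃ R, act (sW (A : ℚ) (B : ℚ)) g.toAlgHom (P i) - P i = (2 : ℕ) • R) →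
    (∀ i j, (∃ R, P i - P j = (2 : ℕ) • R) → i = j) → m ≤ 2 ^ N

theorem cast_gen {M : Type} [Field M] {W W' : WeierstrassCurve M} (h : W = W') :
    ∃ e : W.toAffine.Point ≃+ W'.toAffine.Point, ∀ x y (h : W.toAffine.Nonsingular x y),
      ∃ h', e (Point.some x y h) = Point.some x y h' := by
  subst h
  exact ⟨AddEquiv.refl _, fun x y h => ⟨h, rfl⟩⟩

theorem exists_cast (M : Type) [Field M] [NumberField M] (A B : ℤ) :
    ∃ e : Pt (sW (A : ℚ) (B : ℚ)) M ≃+ Pt (sW (A : M) (B : M)) M, ∀ x y h,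
      ∃ h', e (Point.some x y h) = Point.some x y h' := by
  have h : (sW (A : ℚ) (B : ℚ)).baseChange M = (sW (A : M) (B : M)).baseChange M := by
    apply WeierstrassCurve.ext <;> simp [sW, WeierstrassCurve.baseChange]
  exact cast_gen h

/-- The local condition for a point over `M`. -/
theorem ploc_pt {M : Type} [Field M] {A B x y : M} (hy : y ≠ 0)
    (hxy : y ^ 2 = x ^ 3 + A * x + B) (F : Type) [Field F] [Algebra M F] :
    PLoc F A B (C x - X) := by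
  right
  refine ⟨algebraMap M F x, algebraMap M F y, by simpa using hy, ?_, C (algebraMap M F x) - X, ?_⟩
  · rw [← map_pow, hxy]
    simp
  · have e : (C x - X : M[X]).map (algebraMap M F) = C (algebraMap M F x) - X := by
      simp
    rw [e]
    have e2 : (C (algebraMap M F x) - X) * (C (algebraMap M F x) - X) -
      (C (algebraMap M F x) - X) ^ 2 = 0 := by ring
    rw [e2]
    exact dvd_zero _

/-- The condition at `2` from the local conditions. -/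
theorem c2w_pt {M Ω R : Type} [Field M] [NumberField M] [Field Ω] [Algebra M Ω] [CommRing R]
    [IsDedekindDomain R] [Algebra R M] [IsFractionRing R M] [IsIntegralClosure R ℤ M]
    (hSQD : S_SQD) (hTWG : S_TWG) {a b D : ℤ} (hD : D ≠ 0)
    (hD8 : D % 8 = 1) {t : Ω} (hmin : minpoly M t = ff M a b) (h : M[X])
    (hPL : ∀ w : HeightOneSpectrum R, PLoc (w.adicCompletion M)
      (((a * D ^ 2 : ℤ)) : M) (((b * D ^ 3 : ℤ)) : M) h) :
    C2w M R a b t (aeval ((D : Ω) * t) h) := by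
  intro w hw h' hh'
  have h3 := hTWG M (w.adicCompletion M) a b D hD (hSQD M R w hw D hD8) h (hPL w)
  refine pl_congr ?_ h3
  have h4 : ff M a b ∣ h.comp (C (D : M) * X) - h' := by
    rw [← hmin]
    apply minpoly.dvd
    rw [map_sub, hh', aeval_comp, map_mul, aeval_X, aeval_C, map_intCast, sub_self]
  have h5 := Polynomial.map_dvd (algebraMap M (w.adicCompletion M)) h4
  rw [ff_map, Polynomial.map_sub] at h5
  exact h5

section abs

variable {L M Ω : Type} [Field L] [NumberField L] [Field M] [NumberField M]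
  [Field Ω] [NumberField Ω] [Algebra L Ω] [Algebra M Ω]
  [IsGalois ℚ M]

include Ω in
/-- The bound for the invariants. -/
theorem inv_bd (H : Parts2) (hI : S_INT) {a b : ℤ} {θ : L} {X' : ℕ}
    {S T J : Finset ℤ} {s A B : ℤ → ℤ} (hc : IsCub a b θ) (hS : GoodS S s)
    (hF : Fam X' S s T A B a b) (hT : GoodT T A B) (hJ : J ⊆ S) (hsel : HSel a b J θ)
    {n : ℕ} (hM : Module.finrank ℚ M = 2 ^ n) (hΩ : Module.finrank M Ω = 3)
    (htop : M⟮algebraMap L Ω θ⟯ = ⊤) (ha4 : a % 4 = 3) (hb4 : b % 4 = 3)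
    {J' : Finset ℤ} (hJ' : J' ⊆ J) {R : Finset ℕ} (hR : ∀ l ∈ R, l.Prime)
    (hJR : ∀ Q ∈ J', Q ∉ zs R)
    (hu : ∀ P : ℤ, IsPr P → P ∉ irr a b ∪ zs R ∪ ((J \ J' : Finset ℤ) : Set ℤ) → Unr M P)
    (hr : ∀ Q ∈ J', Res M Q) :
    InvBd M (a * (∏ Q ∈ J, Q) ^ 2) (b * (∏ Q ∈ J, Q) ^ 3)
      ((if Unr M 2 then 0 else 1) + (dm a b R + (J \ J').card)) := by
  have h6M : (6 : M) ≠ 0 := by norm_num
  have htop2 : im ℚ M Ω ⊔ im ℚ L Ω = ⊤ := sup_top hM hc.rank hΩ
  have ha : Odd a := by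
    rw [Int.odd_iff]
    omega
  have hb : Odd b := by
    rw [Int.odd_iff]
    omega
  obtain ⟨T', hT'⟩ : ∃ T' : Set ℤ, T' = irr a b ∪ zs R ∪ ((J \ J' : Finset ℤ) : Set ℤ) := ⟨_, rfl⟩
  rw [← hT'] at hu
  have hJp : ∀ Q ∈ J, IsPr Q := fun Q hQ => (hS Q (hJ hQ)).1
  have hJS' : J' ⊆ S := hJ'.trans hJ
  have hJT : ∀ Q ∈ J', Q ∉ T' := by
    rw [hT']
    rintro Q hQ ((h | h) | h)
    · apply h.2 0
      have := hF.rb Q (hJS' hQ)
      simpa using this
    · exact hJR Q hQ h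
    · exact (Finset.mem_sdiff.1 (Finset.mem_coe.1 h)).2 hQ
  have hTp : ∀ P ∈ T', IsPr P := by
    rw [hT']
    rintro P (h | h)
    · exact zs_pr hR P h
    · exact hJp P (Finset.mem_sdiff.1 (Finset.mem_coe.1 h)).1
  have h2T : (2 : ℤ) ∈ T' := by
    rw [hT']
    exact Or.inl (Or.inl ⟨(hT.2.2 2 hT.1).1, fam_nt hT hF hT.1⟩)
  have h3T : (3 : ℤ) ∈ T' := by
    rw [hT']
    exact Or.inl (Or.inl ⟨(hT.2.2 3 hT.2.1).1, fam_nt hT hF hT.2.1⟩)
  have hnr0 : ∀ w : HeightOneSpectrum (𝓞 M), Ov 2 w → ∀ t : w.adicCompletion M,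
      t ^ 3 + (a : w.adicCompletion M) * t + (b : w.adicCompletion M) ≠ 0 :=
    fun w hw => H.nr M (𝓞 M) n hM w hw a b ha hb
  have hdsc : dsc a b ≠ 0 := hF.sq.ne_zero
  have hD1 : 0 < (∏ Q ∈ J, Q) := Finset.prod_pos fun Q hQ => (hS Q (hJ hQ)).1.1
  have hD0 : (∏ Q ∈ J, Q) ≠ 0 := hD1.ne'
  have hD8 : (∏ Q ∈ J, Q) % 8 = 1 := prod_mod8 fun Q hQ => (hS Q (hJ hQ)).2.1
  obtain ⟨D, hDdef⟩ : ∃ D : ℤ, D = ∏ Q ∈ J, Q := ⟨_, rfl⟩
  rw [← hDdef] at hD1 hD0 hD8 ⊢
  obtain ⟨w₀, hw₀⟩ := exists_over (𝓞 M)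
  have hnrD : ∀ u : M, u ^ 3 + (((a * D ^ 2 : ℤ)) : M) * u + (((b * D ^ 3 : ℤ)) : M) ≠ 0 := by
    intro u hu0
    apply no_root_tw' (hnr0 w₀ hw₀) hD0 (algebraMap M _ u)
    have h1 := congrArg (algebraMap M (w₀.adicCompletion M)) hu0
    rw [map_zero, map_add, map_add, map_mul, map_pow, map_intCast, map_intCast] at h1
    exact h1
  have hirrD := irr_tw' (F := M) (a := a * D ^ 2) (b := b * D ^ 3) hnrD
  have hdisc : 4 * (((a * D ^ 2 : ℤ)) : M) ^ 3 +
      27 * (((b * D ^ 3 : ℤ)) : M) ^ 2 ≠ 0 := by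
    have e : 4 * (((a * D ^ 2 : ℤ)) : M) ^ 3 +
      27 * (((b * D ^ 3 : ℤ)) : M) ^ 2 =
        ((D ^ 6 * dsc a b : ℤ) : M) := by
      simp only [dsc, Int.cast_mul, Int.cast_add, Int.cast_pow, Int.cast_ofNat]
      ring
    rw [e, Int.cast_ne_zero]
    exact mul_ne_zero (pow_ne_zero _ hD0) hdsc
  have hroot : (algebraMap L Ω θ) ^ 3 + (a : Ω) * algebraMap L Ω θ + (b : Ω) = 0 := by
    have h1 := congrArg (algebraMap L Ω) hc.root
    rw [map_zero, map_add, map_add, map_mul, map_pow, map_intCast, map_intCast] at h1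
    exact h1
  have hmin : minpoly M (algebraMap L Ω θ) = ff M a b := by
    haveI : FiniteDimensional M Ω := FiniteDimensional.of_finrank_pos (by rw [hΩ]; norm_num)
    have hint : IsIntegral M (algebraMap L Ω θ) := Algebra.IsIntegral.isIntegral _
    have hd : minpoly M (algebraMap L Ω θ) ∣ ff M a b := by
      apply minpoly.dvd
      simp only [ff, map_add, map_mul, map_pow, aeval_X, aeval_C, map_intCast]
      exact hroot
    have hdeg : (minpoly M (algebraMap L Ω θ)).natDegree = 3 := by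
      rw [(Field.primitive_element_iff_minpoly_natDegree_eq M _).1 htop, hΩ]
    exact (Polynomial.eq_of_monic_of_dvd_of_natDegree_le (minpoly.monic hint) (ff_monic M a b)
      hd (by rw [hdeg, ff_deg])).symm
  obtain ⟨θ', hθ'⟩ : ∃ θ' : Ω, θ' = (D : Ω) * algebraMap L Ω θ := ⟨_, rfl⟩
  have hRt : Rt (((a * D ^ 2 : ℤ)) : M) (((b * D ^ 3 : ℤ)) : M) θ' := by
    unfold Rt
    rw [map_intCast, map_intCast, hθ']
    simp only [Int.cast_mul, Int.cast_pow]
    linear_combination (D : Ω) ^ 3 * hroot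
  obtain ⟨c1, c2, c3⟩ := H.c2w L M Ω (𝓞 M) a b θ hdsc hnr0 hc hΩ htop
  -- the properties of the elements
  obtain ⟨PZ, hPZ⟩ : ∃ PZ : Ω → Prop, ∀ z, PZ z ↔ (z ≠ 0 ∧ IsSquare (Algebra.norm M z) ∧
      (∀ σ : Ω ≃ₐ[L] Ω, IsSquare (z * σ z)) ∧
      Cs (𝓞 Ω) J' T' (algebraMap L Ω θ) z ∧
      C2w M (𝓞 M) a b (algebraMap L Ω θ) z) := ⟨_, fun z => Iff.rfl⟩
  have hCmul : ∀ x y : Ω, x ≠ 0 → y ≠ 0 → Cs (𝓞 Ω) J' T' (algebraMap L Ω θ) x →
      Cs (𝓞 Ω) J' T' (algebraMap L Ω θ) y →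
      Cs (𝓞 Ω) J' T' (algebraMap L Ω θ) (x * y) := by
    intro x y hx hy h h'
    exact cs_mul H.p.cls (fun Q hQ => ⟨(hS Q (hJS' hQ)).1.2,
        not_dvd_two (hS Q (hJS' hQ)).2.1 (hS Q (hJS' hQ)).1.1 (hS Q (hJS' hQ)).1.2⟩)
      (fun Q hQ 𝔓 h1 h2 => odd_top' H.p.exq htop2 hc hF.sq (hS Q (hJS' hQ)).1
        (hF.rb Q (hJS' hQ)) (fam_ns hS hF (hJS' hQ))
        (hu Q (hS Q (hJS' hQ)).1 (hJT Q hQ)) 𝔓 h1 h2) hx hy h h'
  -- descent
  have hdown : ∀ x : L, Cs (𝓞 Ω) J' T' (algebraMap L Ω θ) (algebraMap L Ω x) →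
      Cs (𝓞 L) J' T' θ x := fun x hx => cs_down (𝓞 L) (𝓞 Ω)
    (fun 𝔓 h𝔓 => by
        obtain ⟨𝔓', h1⟩ := exists_above (Ω := Ω) 𝔓
        obtain ⟨P, hP, hP𝔓⟩ := exists_below 𝔓
        refine ⟨𝔓', fun x => ?_⟩
        rw [← h1]
        refine unr_top hP htop2 (hu P hP fun h => h𝔓 P h hP𝔓) 𝔓' ?_ x
        rw [← h1] at hP𝔓
        exact (ov_under P 𝔓').1 hP𝔓)
    (fun Q hQ 𝔓' h1 s hs => dens_top (hS Q (hJS' hQ)).1 htop2
        (hu Q (hS Q (hJS' hQ)).1 (hJT Q hQ)) (hr Q hQ) 𝔓' h1 s hs)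
    (fun Q hQ 𝔓 h P hP hP𝔓 => hJT Q hQ (by
        have : Q = P := below_unique (hS Q (hJS' hQ)).1 (hTp P hP) h hP𝔓
        rw [this]
        exact hP)) hx
  haveI : FiniteDimensional L Ω := FiniteDimensional.right ℚ L Ω
  haveI hNorm : Normal L Ω := normal_of_top htop2
  haveI : IsGalois L Ω := {}
  -- the finite set
  obtain ⟨Z, hZ, hcv⟩ : ∃ Z : Finset L, Z.card ≤
      2 ^ ((if Unr M 2 then 0 else 1) + (dm a b R + (J \ J').card)) ∧
      ∀ z, PZ z → ∃ r ∈ Z, r ≠ 0 ∧ IsSquare (z * algebraMap L Ω r) := by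
    have key : ∀ z, PZ z → ∃ w : L, w ≠ 0 ∧ IsSquare (Algebra.norm ℚ w) ∧
        Cs (𝓞 L) J' T' θ w ∧ (Unr M 2 → Loc2 a b θ w) ∧
        ∃ y : Ω, y ≠ 0 ∧ algebraMap L Ω w = z * y ^ 2 := by
      intro z hz
      obtain ⟨z0, zN, zi, zC, z2⟩ := (hPZ z).1 hz
      obtain ⟨w, hw0, hwN, y, hy0, hwy⟩ := inv_desc (K := ℚ) (L := L) (M := M) (Ω := Ω) hM hc.rank hΩ
        two_ne_zero z0 zN zi
      refine ⟨w, hw0, hwN, hdown w ?_, fun hu2 => ?_, y, hy0, hwy⟩
      · rw [hwy]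
        exact hCmul _ _ z0 (pow_ne_zero 2 hy0) zC (cs_sq hy0)
      · have h3 : C2w M (𝓞 M) a b (algebraMap L Ω θ) (algebraMap L Ω w) := by
          rw [hwy]
          exact c2 _ _ z2 (c1 y)
        refine base_two' (Ω := Ω) (d := 1) hc ha4 hb4 (Or.inl (by norm_num)) hu2 hw0 hwN ?_
        have e1 : a * 1 ^ 2 = a := by ring
        have e2 : b * 1 ^ 3 = b := by ring
        rw [e1, e2, Int.cast_one, one_mul]
        exact h3
    have fin : ∀ (C : L → Prop) (N : ℕ), Cov ℚ L C N →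
        (∀ w : L, Cs (𝓞 L) J' T' θ w → (Unr M 2 → Loc2 a b θ w) → C w) →
        ∃ Z : Finset L, Z.card ≤ N ∧ ∀ z, PZ z → ∃ r ∈ Z, r ≠ 0 ∧ IsSquare (z * algebraMap L Ω r) := by
      rintro C N ⟨Z, hZ, hcv⟩ hC
      refine ⟨Z, hZ, fun z hz => ?_⟩
      obtain ⟨w, hw0, hwN, hwC, hw2, y, hy0, hwy⟩ := key z hz
      obtain ⟨r, hr, hr0, u, hu⟩ := hcv w hw0 (hC w hwC hw2) hwN
      refine ⟨r, hr, hr0, algebraMap L Ω u / y, ?_⟩
      have h5 := congrArg (algebraMap L Ω) hu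
      rw [map_mul, map_mul, hwy] at h5
      field_simp
      linear_combination h5
    have hcov := fun u : Finset Unit =>
      base_covJ H hI hc ha4 hb4 hS hT hF hJ hsel hJ' hR u
    rw [← hT'] at hcov
    by_cases hu2 : Unr M 2
    · rw [if_pos hu2]
      have h3 := fin _ _ (hcov ∅) fun w h1 h2 => ⟨h1, fun _ => h2 hu2⟩
      rwa [Finset.card_empty] at h3
    · rw [if_neg hu2]
      have h3 := fin _ _ (hcov {()}) fun w h1 h2 =>
        ⟨h1, fun h => absurd h (Finset.singleton_ne_empty _)⟩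
      rwa [Finset.card_singleton] at h3
  -- the element of a point
  intro m P hPinv hPd
  obtain ⟨e, he⟩ := exists_cast M (a * D ^ 2) (b * D ^ 3)
  have heq : ∀ {x y : M}, ((sW (((a * D ^ 2 : ℤ)) : M) (((b * D ^ 3 : ℤ)) : M)).baseChange M).toAffine.Nonsingular x y →
      y ^ 2 = x ^ 3 + (((a * D ^ 2 : ℤ)) : M) * x + (((b * D ^ 3 : ℤ)) : M) := by
    intro x y h
    have h3 := h.1
    rw [WeierstrassCurve.Affine.equation_iff] at h3
    simp only [sW, WeierstrassCurve.baseChange, WeierstrassCurve.map, WeierstrassCurve.toAffine,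
      Algebra.algebraMap_self, RingHom.id_apply] at h3
    linear_combination h3
  have hone : ∀ i, (¬ ∃ R, e (P i) = (2 : ℕ) • R) → ∃ x y h, e (P i) = Point.some x y h ∧
      PZ (algebraMap M Ω x - θ') := by
    intro i hi
    have hPi := hPinv i
    rcases hPi' : P i with _ | ⟨x, y, h⟩
    · exfalso
      apply hi
      refine ⟨0, ?_⟩
      rw [hPi', smul_zero]
      exact map_zero e
    · obtain ⟨h', he'⟩ := he x y h
      refine ⟨x, y, h', he', (hPZ _).2 ?_⟩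
      obtain ⟨z0, zN⟩ := normN h6M hdisc hirrD hnrD hRt hΩ h'
      have hxy := heq h'
      have hy0 : y ≠ 0 := by
        rintro rfl
        apply hnrD x
        rw [← hxy]
        ring
      have hPL : ∀ w : HeightOneSpectrum (𝓞 M), PLoc (w.adicCompletion M)
          (((a * D ^ 2 : ℤ)) : M) (((b * D ^ 3 : ℤ)) : M) (C x - X) := fun w =>
        ploc_pt hy0 hxy _
      have ez : aeval θ' (C x - X : M[X]) = algebraMap M Ω x - θ' := by
        rw [map_sub, aeval_C, aeval_X]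
      refine ⟨z0, zN, ?_, ?_, ?_⟩
      · intro σ
        obtain ⟨g, hg⟩ : ∃ g, g = ((σ.restrictScalars ℚ).restrictNormal M : M ≃ₐ[ℚ] M) := ⟨_, rfl⟩
        have hgx : σ (algebraMap M Ω x) = algebraMap M Ω (g x) := by
          rw [hg]
          exact (AlgEquiv.restrictNormal_commutes (σ.restrictScalars ℚ) M x).symm
        have hσθ : σ θ' = θ' := by
          rw [hθ', map_mul, map_intCast, AlgEquiv.commutes]
        rw [map_sub, hgx, hσθ]
        obtain ⟨R', hR'⟩ := hPi g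
        rw [hPi'] at hR'
        obtain ⟨h'', hact⟩ : ∃ h'', act (sW ((a * D ^ 2 : ℤ) : ℚ) ((b * D ^ 3 : ℤ) : ℚ)) g.toAlgHom
            (Point.some x y h) = Point.some (g x) (g y) h'' := ⟨_, rfl⟩
        rw [hact] at hR'
        obtain ⟨h3, he3⟩ := he _ _ h''
        have h4 := congrArg e hR'
        rw [map_sub, map_nsmul, he3, he'] at h4
        have h5 := imB (Ω := Ω) h6M hdisc hirrD hnrD hRt h4
        rwa [mul_comm] at h5
      · have e0 : (∏ Q ∈ J \ J', Q) * ∏ Q ∈ J', Q = D := by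
          rw [hDdef]
          exact Finset.prod_sdiff hJ'
        have e1 : a * ((∏ Q ∈ J \ J', Q) * ∏ Q ∈ J', Q) ^ 2 = a * D ^ 2 := by
          rw [e0]
        have e2 : b * ((∏ Q ∈ J \ J', Q) * ∏ Q ∈ J', Q) ^ 3 = b * D ^ 3 := by
          rw [e0]
        have e3 : ((((∏ Q ∈ J \ J', Q) * ∏ Q ∈ J', Q : ℤ)) : Ω) * algebraMap L Ω θ = θ' := by
          rw [hθ', e0]
        have h3 := cs_topR (d := ∏ Q ∈ J \ J', Q) (h := C x - X) H.p.exq H.p.lie H.p.loc1 H.p.loc2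
          htop2 hc hS hF hJS'
          hTp hJT h2T h3T hu hr (fun P hP hP1 => by
            rw [hT']
            refine Or.inr (Finset.mem_coe.2 (prime_prod (fun Q hQ => ?_) hP hP1))
            exact hJp Q (Finset.mem_sdiff.1 hQ).1)
          (fun w _ => by
            rw [e1, e2]
            exact hPL w) (by
            rw [e3, ez]
            exact z0)
        rw [e3, ez] at h3
        exact h3
      · have h3 := c2w_pt (Ω := Ω) (R := 𝓞 M) H.sqd H.twg hD0 hD8 hmin (C x - X) hPL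
        rw [← hθ', ez] at h3
        exact h3
  have hPZ1 : PZ 1 := by
    rw [hPZ]
    refine ⟨one_ne_zero, ?_, ?_, ?_, ?_⟩
    · rw [map_one]
      exact ⟨1, by ring⟩
    · intro σ
      exact ⟨1, by rw [map_one]⟩
    · have := cs_sq (O' := 𝓞 Ω) (J := J') (T := T') (θ := algebraMap L Ω θ)
        (one_ne_zero : (1 : Ω) ≠ 0)
      rwa [one_pow] at this
    · have := c1 1
      rwa [one_pow] at this
  have hall : ∀ i, ∃ z, PZ z ∧ (((∃ R, e (P i) = (2 : ℕ) • R) ∧ z = 1) ∨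
      ((¬ ∃ R, e (P i) = (2 : ℕ) • R) ∧ ∃ x y h, e (P i) = Point.some x y h ∧
        z = algebraMap M Ω x - θ')) := by
    intro i
    by_cases hi : ∃ R, e (P i) = (2 : ℕ) • R
    · exact ⟨1, hPZ1, Or.inl ⟨hi, rfl⟩⟩
    · obtain ⟨x, y, h, h1, h2⟩ := hone i hi
      exact ⟨_, h2, Or.inr ⟨hi, x, y, h, h1, rfl⟩⟩
  choose z hz hzc using hall
  choose r hrZ hr0 hsq using fun i => hcv _ (hz i)
  have hinj : Function.Injective r := by
    intro i j hij
    apply hPd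
    have hsq2 : IsSquare (z i * z j) := by
      obtain ⟨u, hu⟩ := hsq i
      obtain ⟨v, hv⟩ := hsq j
      rw [← hij] at hv
      have h0 : algebraMap L Ω (r i) ≠ 0 := by simpa using hr0 i
      refine ⟨u * v / algebraMap L Ω (r i), ?_⟩
      field_simp
      linear_combination (z j * algebraMap L Ω (r i)) * hu + u * u * hv
    -- back to the curve over `ℚ`
    suffices h : ∃ R, e (P i) - e (P j) = (2 : ℕ) • R by
      obtain ⟨R', hR'⟩ := h
      refine ⟨e.symm R', ?_⟩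
      apply e.injective
      rw [map_sub, map_nsmul, AddEquiv.apply_symm_apply, hR']
    rcases hzc i with ⟨⟨R₁, hR₁⟩, h1⟩ | ⟨hi, x, y, h, h1, h2⟩
    · rcases hzc j with ⟨⟨R₂, hR₂⟩, h3⟩ | ⟨hj, x', y', h', h3, h4⟩
      · refine ⟨R₁ - R₂, ?_⟩
        rw [hR₁, hR₂, nsmul_sub]
      · exfalso
        apply hj
        rw [h1, h4, one_mul] at hsq2
        obtain ⟨R', hR'⟩ := kerA1 (h := h') h6M hdisc hirrD hnrD hRt hΩ hsq2
        exact ⟨R', by rw [h3, hR']⟩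
    · rcases hzc j with ⟨⟨R₂, hR₂⟩, h3⟩ | ⟨hj, x', y', h', h3, h4⟩
      · exfalso
        apply hi
        rw [h3, h2, mul_one] at hsq2
        obtain ⟨R', hR'⟩ := kerA1 (h := h) h6M hdisc hirrD hnrD hRt hΩ hsq2
        exact ⟨R', by rw [h1, hR']⟩
      · rw [h2, h4] at hsq2
        obtain ⟨R', hR'⟩ := kerA (h := h) (h' := h') h6M hdisc hirrD hnrD hRt hΩ hsq2
        exact ⟨R', by rw [h1, h3, hR']⟩
  have h1 : (Finset.univ.image r).card = m := by
    rw [Finset.card_image_of_injective _ hinj, Finset.card_univ, Fintype.card_fin]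
  rw [← h1]
  refine (Finset.card_le_card ?_).trans hZ
  intro y hy
  obtain ⟨i, -, rfl⟩ := Finset.mem_image.1 hy
  exact hrZ i

end abs

end Pool.Agent.H67R
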