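import Pool.Agent.H67R.Inv
import Pool.Agent.H30GR.Grow

/-!
# A positive proportion of all elliptic curves has few invariants over all 2-extensions
-/

set_option autoImplicit false
set_option linter.all false

open Polynomial IsDedekindDomain WeierstrassCurve WeierstrassCurve.Affine NumberField
open Pool.Agent.TH115.GD
open scoped Classical IntermediateField

namespace Pool.Agent.H67R

open Pool.Agent.N922.PQ
open Pool.Agent.H30EV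
open Pool.Agent.H30GR
open Pool.Agent.N692.PMTOW
open Pool.Agent.N874.PP (Tup chA chB gq tau Two Ev Sq1 U0 sW IsBeta Rt)
open Pool.Agent.N874.PM (PLoc Lies SelR ShaR)

/-- The prescribed field: the cubic polynomial has no zero modulo the ramified primes, and the common
prime divisors of `A`, `B` split. -/
structure AdmI (M : Type) [Field M] [NumberField M] (A B : ℤ) : Prop where
  ur : ∀ P : ℤ, IsPr P → P ∉ irr A B → Unr M P
  sp : ∀ P : ℤ, IsPr P → P ∣ A → P ∣ B → Res M P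

/-- The bounds for the invariants over all Galois extensions of 2-power degree. -/
structure GInv (A B : ℤ) : Prop where
  a4 : A % 4 = 3
  b4 : B % 4 = 3
  pos : 0 < A
  inv : ∀ (M : Type) [Field M] [NumberField M] [IsGalois ℚ M] (n : ℕ),
    Module.finrank ℚ M = 2 ^ n → ∀ (R : Finset ℕ) (K : Finset ℤ),
    (∀ l : ℕ, l ∈ R ↔ l.Prime ∧ ¬ Unr M (l : ℤ)) →
    (∀ Q : ℤ, IsPr Q → Q ∣ A → Q ∣ B → Unr M Q → Res M Q ∨ Q ∈ K) →
    InvBd M A B ((if Unr M 2 then 0 else 1) + (dm A B R + K.card))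

theorem InvBd.mono {M : Type} [Field M] [NumberField M] {A B : ℤ} {N N' : ℕ} (h : InvBd M A B N)
    (hN : N ≤ N') : InvBd M A B N' := fun m P h1 h2 =>
  (h m P h1 h2).trans (Nat.pow_le_pow_right (by norm_num) hN)

/-- The zeros modulo a common prime divisor. -/
theorem nz_dvd {A B : ℤ} {l : ℕ} (hl : l.Prime) (hA : (l : ℤ) ∣ A) (hB : (l : ℤ) ∣ B) :
    nz A B l = 1 := by
  haveI : Fact l.Prime := ⟨hl⟩
  have hA0 : (A : ZMod l) = 0 := (ZMod.intCast_zmod_eq_zero_iff_dvd _ l).2 hA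
  have hB0 : (B : ZMod l) = 0 := (ZMod.intCast_zmod_eq_zero_iff_dvd _ l).2 hB
  unfold nz
  rw [hA0, hB0, Nat.card_eq_one_iff_unique]
  refine ⟨⟨fun x y => ?_⟩, ⟨⟨0, by ring⟩⟩⟩
  have key : ∀ z : {x : ZMod l // x ^ 3 + 0 * x + 0 = 0}, z.1 = 0 := by
    rintro ⟨z, hz⟩
    have h3 : z ^ 3 = 0 := by linear_combination hz
    exact pow_eq_zero_iff (by norm_num) |>.1 h3
  exact Subtype.ext ((key x).trans (key y).symm)

/-- The theorem on the invariants, for a given set `J`. -/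
theorem gInv_of (H : Parts2) (hI : S_INT) {L : Type} [Field L] [NumberField L] {a b : ℤ} {θ : L}
    {X' : ℕ} {S T J : Finset ℤ} {s A B : ℤ → ℤ} (hc : IsCub a b θ)
    (hu : ∀ (Ω : Type) [Field Ω] [CharZero Ω] (t : Ω), t ^ 3 + (a : Ω) * t + (b : Ω) = 0 →
      ∃ φ : L →+* Ω, φ θ = t) (hS : GoodS S s)
    (hF : Fam X' S s T A B a b) (ha4 : a % 4 = 3) (hb4 : b % 4 = 3) (hT : GoodT T A B)
    (hJ : J ⊆ S) (hsel : HSel a b J θ) :
    GInv (a * (∏ Q ∈ J, Q) ^ 2) (b * (∏ Q ∈ J, Q) ^ 3) := by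
  have hnt2 : ∀ z : ℤ, ¬ (2 : ℤ) ∣ z ^ 3 + a * z + b := fam_nt hT hF hT.1
  obtain ⟨ha, hb⟩ := odd_of hnt2
  have hJp : ∀ Q ∈ J, IsPr Q := fun Q hQ => (hS Q (hJ hQ)).1
  have hD8 : (∏ Q ∈ J, Q) % 8 = 1 := prod_mod8 fun Q hQ => (hS Q (hJ hQ)).2.1
  have hDpos : 0 < ∏ Q ∈ J, Q := Finset.prod_pos fun Q hQ => (hJp Q hQ).1
  obtain ⟨m, hm⟩ : ∃ m : ℤ, (∏ Q ∈ J, Q) = 4 * m + 1 := ⟨(∏ Q ∈ J, Q) / 4, by omega⟩
  refine ⟨?_, ?_, ?_, ?_⟩
  · have e : a * (∏ Q ∈ J, Q) ^ 2 = a + 4 * (a * (4 * m ^ 2 + 2 * m)) := by rw [hm]; ring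
    rw [e]
    omega
  · have e : b * (∏ Q ∈ J, Q) ^ 3 = b + 4 * (b * (16 * m ^ 3 + 12 * m ^ 2 + 3 * m)) := by
      rw [hm]; ring
    rw [e]
    omega
  · have := hF.pa
    positivity
  intro M _ _ _ n hM R K hR hK
  obtain ⟨J', hJ'⟩ : ∃ J' : Finset ℤ, J' = J.filter fun Q => Unr M Q ∧ Res M Q := ⟨_, rfl⟩
  obtain ⟨R', hR'⟩ : ∃ R' : Finset ℕ, R' = R.filter fun l : ℕ => (l : ℤ) ∉ J := ⟨_, rfl⟩
  have hJJ : J' ⊆ J := by
    rw [hJ']
    exact Finset.filter_subset _ _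
  have hDd : ∀ Q ∈ J, Q ∣ ∏ Q ∈ J, Q := fun Q hQ => Finset.dvd_prod_of_mem (fun Q : ℤ => Q) hQ
  obtain ⟨w₀, hw₀⟩ := exists_over (𝓞 M)
  have hnr := H.nr M (𝓞 M) n hM w₀ hw₀ a b ha hb
  have hnrM : ∀ t : M, t ^ 3 + (a : M) * t + (b : M) ≠ 0 := by
    intro t ht
    apply hnr (algebraMap M _ t)
    have h1 := congrArg (algebraMap M (w₀.adicCompletion M)) ht
    rw [map_zero, map_add, map_add, map_mul, map_pow, map_intCast, map_intCast] at h1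
    exact h1
  have hirrM : Irreducible (ff M a b) := irr_tw' hnrM
  obtain ⟨Ω, iF', iA', t, ht, hr, htop, hfin⟩ := exists_field hirrM (ff_monic M a b) (ff_deg M a b)
  haveI : CharZero Ω := charZero_of_injective_algebraMap (algebraMap M Ω).injective
  haveI : FiniteDimensional ℚ Ω := FiniteDimensional.trans ℚ M Ω
  haveI : NumberField Ω := ⟨⟩
  have ht' : t ^ 3 + (a : Ω) * t + (b : Ω) = 0 := by
    simp only [ff, map_add, map_mul, map_pow, aeval_X, aeval_C, map_intCast] at ht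
    exact ht
  obtain ⟨φ, hφ⟩ := hu Ω t ht'
  letI : Algebra L Ω := φ.toAlgebra
  have hroot : algebraMap L Ω θ = t := hφ
  have htop' : M⟮algebraMap L Ω θ⟯ = ⊤ := by rw [hroot]; exact htop
  have h1 := inv_bd (Ω := Ω) H hI hc hS hF hT hJ hsel hM hr htop' ha4 hb4 hJJ (R := R')
    (fun l hl => by
      rw [hR', Finset.mem_filter] at hl
      exact ((hR l).1 hl.1).1)
    (by
      rintro Q hQ ⟨l, hl, rfl⟩
      rw [hR', Finset.mem_filter] at hl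
      exact hl.2 (hJJ hQ))
    (fun P hP hPT => by
      by_contra h
      apply hPT
      by_cases hPJ : P ∈ J
      · refine Or.inr (Finset.mem_coe.2 (Finset.mem_sdiff.2 ⟨hPJ, fun h3 => ?_⟩))
        rw [hJ', Finset.mem_filter] at h3
        exact h h3.2.1
      · obtain ⟨l, hl, rfl⟩ := nat_isPr hP
        refine Or.inl (Or.inr ⟨l, ?_, rfl⟩)
        rw [hR', Finset.mem_filter]
        exact ⟨(hR l).2 ⟨hl, h⟩, hPJ⟩)
    (fun Q hQ => by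
      rw [hJ', Finset.mem_filter] at hQ
      exact hQ.2.2)
  refine h1.mono (Nat.add_le_add_left ?_ _)
  -- the dimensions
  obtain ⟨R₂, hR₂⟩ : ∃ R₂ : Finset ℕ, R₂ = R.filter fun l : ℕ => (l : ℤ) ∈ J := ⟨_, rfl⟩
  have hdm : dm (a * (∏ Q ∈ J, Q) ^ 2) (b * (∏ Q ∈ J, Q) ^ 3) R = dm a b R' + R₂.card := by
    unfold dm
    rw [← Finset.sum_filter_add_sum_filter_not R (fun l : ℕ => (l : ℤ) ∈ J), add_comm, ← hR', ← hR₂]
    congr 1
    · refine Finset.sum_congr rfl fun l hl => ?_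
      rw [hR', Finset.mem_filter, hR] at hl
      rw [nz_tw hl.1.1]
      intro hlD
      exact hl.2 (prime_prod hJp (isPr_nat hl.1.1) hlD)
    · rw [Finset.card_eq_sum_ones]
      refine Finset.sum_congr rfl fun l hl => ?_
      rw [hR₂, Finset.mem_filter, hR] at hl
      rw [nz_dvd hl.1.1 ((dvd_pow (hDd _ hl.2) two_ne_zero).mul_left _)
        ((dvd_pow (hDd _ hl.2) three_ne_zero).mul_left _)]
      norm_num
  have hcard : (J \ J').card ≤ R₂.card + K.card := by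
    have hsub : J \ J' ⊆ R₂.image (fun l : ℕ => (l : ℤ)) ∪ K := by
      intro Q hQ
      obtain ⟨hQJ, hQ'⟩ := Finset.mem_sdiff.1 hQ
      rw [hJ', Finset.mem_filter] at hQ'
      by_cases hun : Unr M Q
      · refine Finset.mem_union_right _ ?_
        rcases hK Q (hJp Q hQJ) ((dvd_pow (hDd _ hQJ) two_ne_zero).mul_left _)
          ((dvd_pow (hDd _ hQJ) three_ne_zero).mul_left _) hun with h | h
        · exact absurd ⟨hQJ, hun, h⟩ hQ'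
        · exact h
      · refine Finset.mem_union_left _ ?_
        obtain ⟨l, hl, rfl⟩ := nat_isPr (hJp Q hQJ)
        refine Finset.mem_image.2 ⟨l, ?_, rfl⟩
        rw [hR₂, Finset.mem_filter]
        exact ⟨(hR l).2 ⟨hl, hun⟩, hQJ⟩
    refine (Finset.card_le_card hsub).trans ((Finset.card_union_le _ _).trans ?_)
    exact Nat.add_le_add_right Finset.card_image_le _
  rw [hdm]
  omega

/-- The theorem on the invariants. -/
theorem selEQ (H : Parts2) (hI : S_INT) {κ : ℕ} (hLB : LBk κ) {a b : ℤ} {X' : ℕ}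
    {S T : Finset ℤ} {s A B : ℤ → ℤ} (hS : GoodS S s)
    (hF : Fam X' S s T A B a b) (ha4 : a % 4 = 3) (hb4 : b % 4 = 3)
    (hnb : ¬ LBad κ X' S s a b) (hT : GoodT T A B) :
    ∃ J ⊆ S, GInv (a * (∏ Q ∈ J, Q) ^ 2) (b * (∏ Q ∈ J, Q) ^ 3) := by
  have hnt2 : ∀ z : ℤ, ¬ (2 : ℤ) ∣ z ^ 3 + a * z + b := fam_nt hT hF hT.1
  -- the cubic field
  have hirr : Irreducible (ff ℚ a b) := by
    have hone : (X ^ 3 + C ((((a * 1 ^ 2 : ℤ)) : ℚ)) * X +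
      C ((((b * 1 ^ 3 : ℤ)) : ℚ)) : ℚ[X]) = ff ℚ a b := by
      rw [one_pow, one_pow, mul_one, mul_one]
      rfl
    rw [← hone]
    exact irr_tw (algebraMap ℚ ℚ_[2]) hnt2 one_ne_zero
  obtain ⟨L, iF, iN, θ, hc, hu⟩ := exists_cub hirr
  obtain ⟨J, hJ, hsel⟩ := core2 (L := L) (𝓞 L) H.p.cls H.p.exq H.p.ns H.p.lin H.p.recp H.p.plm
    H.p.sd H.p.ttv hLB hc hS hT hF hnb
  exact ⟨J, hJ, gInv_of H hI hc hu hS hF ha4 hb4 hT hJ hsel⟩

/-! ### Counting -/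

/-- The good curves. -/
structure GoodQ (M₀ : Type) [Field M₀] [NumberField M₀] (T₀ : Finset ℤ) (κ : ℕ) (p : ℤ × ℤ) :
    Prop where
  ir : ∀ P ∈ T₀, P ∈ irr p.1 p.2
  adm : AdmI M₀ p.1 p.2
  cm : ∃ K : Finset ℤ, K.card ≤ κ ∧ ∀ P : ℤ, IsPr P → P ∣ p.1 → P ∣ p.2 → P ∈ K
  sel : GInv p.1 p.2

/-- The main theorem with a bound of order `X ^ 5`. -/
theorem mainQ (M₀ : Type) [Field M₀] [NumberField M₀] [IsGalois ℚ M₀]
    (T₀ : Finset ℤ) (hT₀ : ∀ P ∈ T₀, IsPr P) :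
    ∃ (C P X₀ : ℕ) (c : ℝ), 0 < c ∧ 1 ≤ P ∧ ∀ X : ℕ, X₀ ≤ X → ∀ H : ℕ, 27 * (X * P) ^ 6 ≤ H →
      c * (X : ℝ) ^ 5 ≤ ({p : ℤ × ℤ | Crv H p.1 p.2 ∧ GoodQ M₀ T₀ C p}.ncard : ℝ) := by
  obtain ⟨κ, hLB'⟩ := lb
  obtain ⟨γ, g, δ, hG, hdeg⟩ := Pool.Agent.N40.PQ.gen M₀
  -- the prime divisors of `δ`
  obtain ⟨T₁, hT₁, hδ₁⟩ : ∃ T : Finset ℤ, (∀ P ∈ T, IsPr P) ∧
      ∀ P : ℤ, IsPr P → P ∣ δ → P ∈ T := by
    have hf : {P : ℤ | IsPr P ∧ P ∣ δ}.Finite := by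
      refine (Set.finite_Icc (-|δ|) |δ|).subset ?_
      rintro P ⟨-, h⟩
      have h3 : |P| ≤ |δ| := Int.le_of_dvd (abs_pos.2 hG.ne) ((abs_dvd_abs P δ).2 h)
      exact abs_le.1 h3
    refine ⟨hf.toFinset, fun P hP => ?_, fun P h1 h2 => ?_⟩
    · exact (hf.mem_toFinset.1 hP).1
    · exact hf.mem_toFinset.2 ⟨h1, h2⟩
  obtain ⟨T, A, B, hTT, hT⟩ := Pool.Agent.N954.PQ.tch (T₀ ∪ T₁) (by
    intro P hP
    rcases Finset.mem_union.1 hP with h | h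
    · exact hT₀ P h
    · exact hT₁ P h)
  have hδ : ∀ P : ℤ, IsPr P → P ∣ δ → P ∈ T := fun P h1 h2 =>
    hTT (Finset.mem_union_right _ (hδ₁ P h1 h2))
  have hT0T : T₀ ⊆ T := fun P hP => hTT (Finset.mem_union_left _ hP)
  obtain ⟨S, s, c, hS, hdis, hsp, hc, X₀, hX₀⟩ := good_card3 κ hT
    (fun Q => SplitMod Q g) (Pool.Agent.N40.PQ.spl M₀ γ g δ hG hdeg T)
  have hSpos : 0 < ∏ Q ∈ S, Q := Finset.prod_pos fun Q hQ => (hS Q hQ).1.1
  refine ⟨S.card, (∏ Q ∈ S, Q).toNat, X₀, c / 2 ^ S.card,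
    by positivity, by omega, fun X hX Hh hHh => ?_⟩
  have hN := hX₀ X hX
  set Hs := {p : ℤ × ℤ | Crv Hh p.1 p.2 ∧ GoodQ M₀ T₀ S.card p} with hH
  set G := {p : ℤ × ℤ | (Fam X S s T A B p.1 p.2 ∧ p.1 % 4 = 3 ∧ p.2 % 4 = 3) ∧
    ¬ LBad κ X S s p.1 p.2} with hG'
  have hHf : Hs.Finite := (crv_fin Hh).subset fun p hp => hp.1
  have hbd : 27 * ((X : ℤ) * ∏ Q ∈ S, Q) ^ 6 ≤ Hh := by
    have h1 : ((27 * (X * (∏ Q ∈ S, Q).toNat) ^ 6 : ℕ) : ℤ) ≤ Hh := by exact_mod_cast hHh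
    have e1 : (((∏ Q ∈ S, Q).toNat : ℕ) : ℤ) = ∏ Q ∈ S, Q := Int.toNat_of_nonneg hSpos.le
    rw [Nat.cast_mul, Nat.cast_pow, Nat.cast_mul, e1] at h1
    exact_mod_cast h1
  have hcard := card_fib hHf S
    (fun (J : Finset ℤ) (p : ℤ × ℤ) => (p.1 * (∏ Q ∈ J, Q) ^ 2, p.2 * (∏ Q ∈ J, Q) ^ 3)) (G := G) (by
      rintro p ⟨⟨hpF, hpa, hpb⟩, hnb⟩
      obtain ⟨J, hJ, hsel⟩ := selEQ parts2 Pool.Agent.N849.PQ.int hLB' hS hpF hpa hpb hnb hT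
      refine ⟨J, hJ, ?_⟩
      have hcrv := Pool.Agent.N707.PQ.crv X Hh S T s A B p.1 p.2 hS hT hpF J hJ hbd
      have hJp : ∀ Q ∈ J, IsPr Q := fun Q hQ => (hS Q (hJ hQ)).1
      have hirr2 : irr (p.1 * (∏ Q ∈ J, Q) ^ 2) (p.2 * (∏ Q ∈ J, Q) ^ 3) = irr p.1 p.2 :=
        irr_mul fun P hP hPD => hpF.rb P (hJ (prime_prod hJp hP hPD))
      have hTirr : ∀ P ∈ T, P ∈ irr p.1 p.2 := fun P hP =>
        ⟨(hT.2.2 P hP).1, fam_nt hT hpF hP⟩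
      have hcom : ∀ P : ℤ, IsPr P → P ∣ p.1 * (∏ Q ∈ J, Q) ^ 2 → P ∣ p.2 * (∏ Q ∈ J, Q) ^ 3 →
          P ∈ J := by
        intro P hP hPA hPB
        by_contra hPJ
        have hnD : ¬ P ∣ ∏ Q ∈ J, Q := fun h => hPJ (prime_prod hJp hP h)
        have h1 : P ∣ p.1 := by
          rcases hP.2.dvd_or_dvd hPA with h | h
          · exact h
          · exact absurd (hP.2.dvd_of_dvd_pow h) hnD
        have h2 : P ∣ p.2 := by
          rcases hP.2.dvd_or_dvd hPB with h | h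
          · exact h
          · exact absurd (hP.2.dvd_of_dvd_pow h) hnD
        exact coprime_ab hpF.sq hP h1 h2
      refine ⟨hcrv, ?_, ?_, ⟨J, Finset.card_le_card hJ, hcom⟩, hsel⟩
      · intro P hP
        show P ∈ irr (p.1 * (∏ Q ∈ J, Q) ^ 2) (p.2 * (∏ Q ∈ J, Q) ^ 3)
        rw [hirr2]
        exact hTirr P (hT0T hP)
      · refine ⟨fun P hP hPi => ?_, fun P hP hPA hPB => ?_⟩
        · refine unr_of_gen hG hP fun hPδ => hPi ?_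
          show P ∈ irr (p.1 * (∏ Q ∈ J, Q) ^ 2) (p.2 * (∏ Q ∈ J, Q) ^ 3)
          rw [hirr2]
          exact hTirr P (hδ P hP hPδ)
        · have hPJ : P ∈ J := hcom P hP hPA hPB
          have hPS := hJ hPJ
          refine res_of_gen hG hP (fun hPδ => ?_) (hsp P hPS)
          exact Finset.disjoint_left.1 hdis hPS (hδ P hP hPδ)) (by
      intro J hJ x hx y hy hxy
      have hD0 : (∏ Q ∈ J, Q) ≠ 0 := by
        rw [Finset.prod_ne_zero_iff]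
        exact fun Q hQ => (hS Q (hJ hQ)).1.2.ne_zero
      rw [Prod.mk.injEq] at hxy
      exact twist_inj hD0 hxy.1 hxy.2)
  have hcard' : (G.ncard : ℝ) ≤ 2 ^ S.card * Hs.ncard := by exact_mod_cast hcard
  calc c / 2 ^ S.card * (X : ℝ) ^ 5
      = c * (X : ℝ) ^ 5 / 2 ^ S.card := by ring
    _ ≤ (G.ncard : ℝ) / 2 ^ S.card := by gcongr
    _ ≤ (2 ^ S.card * Hs.ncard) / 2 ^ S.card := by gcongr
    _ = Hs.ncard := by field_simp

/-- A positive proportion of all elliptic curves is good. -/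
theorem propQ (M₀ : Type) [Field M₀] [NumberField M₀] [IsGalois ℚ M₀]
    (T₀ : Finset ℤ) (hT₀ : ∀ P ∈ T₀, IsPr P) :
    ∃ C : ℕ, ∃ c : ℝ, 0 < c ∧ ∃ H₀ : ℕ, ∀ H ≥ H₀, {p : ℤ × ℤ | Crv H p.1 p.2}.Finite ∧
    c * ({p : ℤ × ℤ | Crv H p.1 p.2}.ncard : ℝ) ≤
      ({p : ℤ × ℤ | Crv H p.1 p.2 ∧ GoodQ M₀ T₀ C p}.ncard : ℝ) := by
  obtain ⟨C, P, X₀, c, hc, hP, h⟩ := mainQ M₀ T₀ hT₀
  exact ⟨C, Pool.Agent.N607.PQ.cnt (fun p => GoodQ M₀ T₀ C p) P X₀ c hc hP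
    fun X hX Hh hHh => h X hX Hh hHh⟩

end Pool.Agent.H67R
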