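import Pool.Agent.H30GR.Qs

/-!
# Descent of invariant square classes
-/

set_option autoImplicit false
set_option linter.all false

open Module
open scoped Classical IntermediateField

namespace Pool.Agent.H67R

open Pool.Agent.N692.PMTOW

section

variable {K L M Ω : Type} [Field K] [Field L] [Field M] [Field Ω] [Algebra K L] [Algebra K M]
  [Algebra L Ω] [Algebra M Ω] [Algebra K Ω] [IsScalarTower K L Ω] [IsScalarTower K M Ω]

theorem span_top [FiniteDimensional K L] (htop : im K M Ω ⊔ im K L Ω = ⊤) (x : Ω) :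
    x ∈ Submodule.span M (Set.range (algebraMap L Ω)) := by
  have h1 : x ∈ IntermediateField.adjoin M (Set.range (algebraMap L Ω)) :=
    adj_top (K := K) (L := M) (M := L) (by rw [sup_comm]; exact htop) x
  have h2 : (IntermediateField.adjoin M (Set.range (algebraMap L Ω))).toSubalgebra =
      Algebra.adjoin M (Set.range (algebraMap L Ω)) := by
    apply IntermediateField.adjoin_toSubalgebra_of_isAlgebraic
    rintro _ ⟨l, rfl⟩
    have h3 : IsIntegral K l := IsIntegral.of_finite K l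
    exact ((h3.map (IsScalarTower.toAlgHom K L Ω)).tower_top (A := M)).isAlgebraic
  have h3 : x ∈ Algebra.adjoin M (Set.range (algebraMap L Ω)) := by
    rw [← h2]
    exact h1
  have h4 : x ∈ Subalgebra.toSubmodule (Algebra.adjoin M (Set.range (algebraMap L Ω))) := h3
  rw [Algebra.adjoin_eq_span] at h4
  have h5 : (Submonoid.closure (Set.range (algebraMap L Ω)) : Set Ω) =
      Set.range (algebraMap L Ω) := by
    have h6 : Set.range (algebraMap L Ω) = (MonoidHom.mrange (algebraMap L Ω) : Set Ω) :=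
      (MonoidHom.coe_mrange _).symm
    rw [h6, Submonoid.closure_eq]
  rw [h5] at h4
  exact h4

/-- The norm commutes with the base change. -/
theorem norm_bc' [FiniteDimensional K L] (htop : im K M Ω ⊔ im K L Ω = ⊤)
    (hd : finrank K L = finrank M Ω) (w : L) :
    Algebra.norm M (algebraMap L Ω w) = algebraMap K M (Algebra.norm K w) := by
  haveI : FiniteDimensional M Ω := FiniteDimensional.of_finrank_pos (hd ▸ finrank_pos)
  let b := finBasis K L
  have hL : ∀ u : L, algebraMap L Ω u = ∑ i, algebraMap M Ω (algebraMap K M (b.repr u i)) *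
      algebraMap L Ω (b i) := by
    intro u
    conv_lhs => rw [← b.sum_repr u]
    rw [map_sum]
    refine Finset.sum_congr rfl fun i _ => ?_
    rw [Algebra.smul_def, map_mul, ← IsScalarTower.algebraMap_apply K L Ω,
      ← IsScalarTower.algebraMap_apply K M Ω]
  have hmem : ∀ u : L, algebraMap L Ω u ∈
      Submodule.span M (Set.range fun i => algebraMap L Ω (b i)) := by
    intro u
    rw [hL u]
    refine Submodule.sum_mem _ fun i _ => ?_
    rw [← Algebra.smul_def]
    exact Submodule.smul_mem _ _ (Submodule.subset_span ⟨i, rfl⟩)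
  have htop' : ⊤ ≤ Submodule.span M (Set.range fun i => algebraMap L Ω (b i)) := by
    intro x _
    have h1 := span_top (M := M) htop x
    refine Submodule.span_le.2 ?_ h1
    rintro _ ⟨u, rfl⟩
    exact hmem u
  have hli : LinearIndependent M (fun i => algebraMap L Ω (b i)) :=
    linearIndependent_of_top_le_span_of_card_eq_finrank htop' (by simp [hd])
  let c : Basis (Fin (finrank K L)) M Ω := Basis.mk hli htop'
  have hc : ∀ i, c i = algebraMap L Ω (b i) := fun i => by simp [c]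
  rw [Algebra.norm_eq_matrix_det c, Algebra.norm_eq_matrix_det b]
  have : Algebra.leftMulMatrix c (algebraMap L Ω w) =
      (algebraMap K M).mapMatrix (Algebra.leftMulMatrix b w) := by
    ext i j
    rw [Algebra.leftMulMatrix_eq_repr_mul, RingHom.mapMatrix_apply, Matrix.map_apply,
      Algebra.leftMulMatrix_eq_repr_mul, hc, ← map_mul, hL (w * b j)]
    have : ∀ k, algebraMap M Ω (algebraMap K M (b.repr (w * b j) k)) * algebraMap L Ω (b k) =
        (algebraMap K M (b.repr (w * b j) k)) • c k := fun k => by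
      rw [hc, Algebra.smul_def]
    rw [Finset.sum_congr rfl fun k _ => this k, map_sum, Finsupp.finset_sum_apply]
    simp only [map_smul, Basis.repr_self, Finsupp.smul_apply, Finsupp.single_apply, smul_eq_mul,
      mul_ite, mul_one, mul_zero, Finset.sum_ite_eq', Finset.mem_univ, if_true]
  rw [this, ← RingHom.map_det]

/-- The norm and the automorphisms. -/
theorem norm_sig [Normal K M] (σ : Ω ≃ₐ[L] Ω) (y : Ω) :
    Algebra.norm M (σ y) = (((σ.restrictScalars K).restrictNormal M : M ≃ₐ[K] M)) (Algebra.norm M y) := by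
  obtain ⟨τ, hτ⟩ : ∃ τ, τ = ((σ.restrictScalars K).restrictNormal M : M ≃ₐ[K] M) := ⟨_, rfl⟩
  rw [← hτ]
  have h1 := Algebra.norm_eq_of_equiv_equiv (A₁ := M) (B₁ := Ω) (A₂ := M) (B₂ := Ω)
    (τ : M ≃+* M) (σ : Ω ≃+* Ω) (by
      ext m
      have := AlgEquiv.restrictNormal_commutes (σ.restrictScalars K) M m
      rw [← hτ] at this
      simpa using this) y
  rw [h1]
  simp

/-- A square class which is invariant and whose norm is a square comes from `L`. -/
theorem inv_desc [IsGalois K M] [IsGalois L Ω] [FiniteDimensional K Ω] {n : ℕ}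
    (hM : finrank K M = 2 ^ n) (hL : finrank K L = 3) (hΩ : finrank M Ω = 3)
    (h2 : (2 : M) ≠ 0) {x : Ω} (hx : x ≠ 0)
    (hN : IsSquare (Algebra.norm M x)) (hinv : ∀ σ : Ω ≃ₐ[L] Ω, IsSquare (x * σ x)) :
    ∃ w : L, w ≠ 0 ∧ IsSquare (Algebra.norm K w) ∧ ∃ y : Ω, y ≠ 0 ∧
      algebraMap L Ω w = x * y ^ 2 := by
  have htop : im K M Ω ⊔ im K L Ω = ⊤ := sup_top hM hL hΩ
  haveI : FiniteDimensional K M := .of_finrank_pos (by rw [hM]; positivity)
  haveI : FiniteDimensional K L := .of_finrank_pos (by rw [hL]; norm_num)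
  haveI : FiniteDimensional M Ω := .of_finrank_pos (by rw [hΩ]; norm_num)
  haveI : FiniteDimensional L Ω := FiniteDimensional.right K L Ω
  obtain ⟨c, hc⟩ := hN
  have hN0 : Algebra.norm M x ≠ 0 := by
    rw [Ne, Algebra.norm_eq_zero_iff]
    exact hx
  have hc0 : c ≠ 0 := by
    rintro rfl
    apply hN0
    rw [hc, mul_zero]
  obtain ⟨ρ, hρ⟩ : ∃ ρ : (Ω ≃ₐ[L] Ω) → (M ≃ₐ[K] M), ∀ σ, ρ σ =
    (σ.restrictScalars K).restrictNormal M := ⟨_, fun σ => rfl⟩
  have hnσ : ∀ (σ : Ω ≃ₐ[L] Ω) (y : Ω), Algebra.norm M (σ y) = ρ σ (Algebra.norm M y) :=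
    fun σ y => by rw [hρ]; exact norm_sig σ y
  have hcm : ∀ (σ : Ω ≃ₐ[L] Ω) (m : M), algebraMap M Ω (ρ σ m) = σ (algebraMap M Ω m) :=
    fun σ m => by
      rw [hρ]
      exact AlgEquiv.restrictNormal_commutes (σ.restrictScalars K) M m
  have hneg : ∀ y : Ω, Algebra.norm M (-y) = - Algebra.norm M y := by
    intro y
    have e : -y = algebraMap M Ω (-1) * y := by
      rw [map_neg, map_one, neg_one_mul]
    rw [e, map_mul, Algebra.norm_algebraMap, hΩ]
    ring
  -- the square roots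
  have hex : ∀ σ : Ω ≃ₐ[L] Ω, ∃ y : Ω, y * y = x * σ x ∧ Algebra.norm M y = c * ρ σ c := by
    intro σ
    obtain ⟨y, hy⟩ := hinv σ
    have h1 : (Algebra.norm M y) ^ 2 = (c * ρ σ c) ^ 2 := by
      rw [sq, ← map_mul, ← hy, map_mul, hnσ, hc, map_mul]
      ring
    rcases sq_eq_sq_iff_eq_or_eq_neg.1 h1 with h3 | h3
    · exact ⟨y, hy.symm, h3⟩
    · exact ⟨-y, by rw [neg_mul_neg, hy], by rw [hneg, h3, neg_neg]⟩
  choose y hy hyN using hex
  have hσx : ∀ σ : Ω ≃ₐ[L] Ω, σ x ≠ 0 := fun σ => by simpa using hx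
  have hy0 : ∀ σ, y σ ≠ 0 := by
    intro σ h0
    have h1 := hy σ
    rw [h0, mul_zero] at h1
    exact mul_ne_zero hx (hσx σ) h1.symm
  -- uniqueness
  have huniq : ∀ u v : Ω, u ≠ 0 → u * u = v * v → Algebra.norm M u = Algebra.norm M v → u = v := by
    intro u v hu h1 h3
    rcases mul_self_eq_mul_self_iff.1 h1 with h4 | h4
    · exact h4
    · exfalso
      rw [h4, hneg] at h3
      have h5 : (2 : M) * Algebra.norm M v = 0 := by linear_combination -h3
      rcases mul_eq_zero.1 h5 with h6 | h6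
      · exact h2 h6
      · rw [Algebra.norm_eq_zero_iff] at h6
        rw [h6, neg_zero] at h4
        exact hu h4
  have hρm : ∀ (σ τ : Ω ≃ₐ[L] Ω) (m : M), ρ (σ * τ) m = ρ σ (ρ τ m) := by
    intro σ τ m
    apply (algebraMap M Ω).injective
    rw [hcm, hcm, hcm]
    rfl
  have hcoc : ∀ σ τ : Ω ≃ₐ[L] Ω, y (σ * τ) * σ x = y σ * σ (y τ) := by
    intro σ τ
    apply huniq
    · exact mul_ne_zero (hy0 _) (hσx σ)
    · have h1 := hy (σ * τ)
      have h3 := congrArg σ (hy τ)
      rw [map_mul, map_mul] at h3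
      have h4 : (σ * τ) x = σ (τ x) := rfl
      rw [h4] at h1
      linear_combination (σ x * σ x) * h1 - (x * σ x) * h3 - σ (y τ) * σ (y τ) * (hy σ)
    · rw [map_mul, map_mul, hyN, hyN, hnσ, hnσ, hyN, hc, hρm, map_mul, map_mul]
      ring
  -- Hilbert 90
  let f : (Ω ≃ₐ[L] Ω) → Ωˣ := fun σ => Units.mk0 (y σ / x) (div_ne_zero (hy0 σ) hx)
  have hf : groupCohomology.IsMulCocycle₁ f := by
    intro σ τ
    apply Units.ext
    show y (σ * τ) / x = σ (y τ / x) * (y σ / x)
    rw [map_div₀]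
    have h1 := hcoc σ τ
    have h3 := hσx σ
    field_simp
    linear_combination h1
  obtain ⟨d, hd⟩ := groupCohomology.isMulCoboundary₁_of_isMulCocycle₁_of_aut_to_units f hf
  have hd' : ∀ σ : Ω ≃ₐ[L] Ω, σ (d : Ω) * x = y σ * (d : Ω) := by
    intro σ
    have h1 := congrArg (fun u : Ωˣ => (u : Ω)) (hd σ)
    have h3 : σ (d : Ω) / (d : Ω) = y σ / x := by
      have e1 : ((σ • d / d : Ωˣ) : Ω) = σ (d : Ω) / (d : Ω) := by
        rw [Units.val_div_eq_div_val]
        rfl
      have e2 : ((f σ : Ωˣ) : Ω) = y σ / x := rfl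
      rw [← e1, ← e2]
      exact h1
    have hd0 : (d : Ω) ≠ 0 := d.ne_zero
    field_simp at h3
    linear_combination h3
  have hd0 : (d : Ω) ≠ 0 := d.ne_zero
  have hσd : ∀ σ : Ω ≃ₐ[L] Ω, σ (d : Ω) ≠ 0 := fun σ => by simpa using hd0
  have hfix : ∀ σ : Ω ≃ₐ[L] Ω, σ (x * ((d : Ω)⁻¹) ^ 2) = x * ((d : Ω)⁻¹) ^ 2 := by
    intro σ
    rw [map_mul, map_pow, map_inv₀]
    have h1 := hd' σ
    have h3 := hy σ
    have h4 := hσd σ
    have h5 : (σ (d : Ω) * x) ^ 2 = (x * σ x) * (d : Ω) ^ 2 := by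
      rw [h1, ← h3]
      ring
    field_simp
    apply mul_left_cancel₀ hx
    linear_combination -h5
  obtain ⟨w, hw⟩ := (IsGalois.mem_range_algebraMap_iff_fixed (F := L) (x * ((d : Ω)⁻¹) ^ 2)).2 hfix
  have hw0 : w ≠ 0 := by
    rintro rfl
    rw [map_zero] at hw
    exact mul_ne_zero hx (pow_ne_zero 2 (inv_ne_zero hd0)) hw.symm
  refine ⟨w, hw0, ?_, (d : Ω)⁻¹, inv_ne_zero hd0, hw⟩
  -- the norm of `w`
  obtain ⟨e, he⟩ : ∃ e, e = c * Algebra.norm M ((d : Ω)⁻¹) := ⟨_, rfl⟩
  have he2 : e * e = algebraMap K M (Algebra.norm K w) := by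
    rw [← norm_bc' htop (by rw [hL, hΩ]) w, hw, map_mul, map_pow, hc, he]
    ring
  have hefix : ∀ σ : Ω ≃ₐ[L] Ω, σ (algebraMap M Ω e) = algebraMap M Ω e := by
    intro σ
    rw [← hcm]
    congr 1
    rw [he, map_mul, ← hnσ, map_inv₀]
    have h1 := congrArg (Algebra.norm M) (hd' σ)
    rw [map_mul, map_mul, hyN, hc] at h1
    have hinv' : ∀ z : Ω, z ≠ 0 → Algebra.norm M (z⁻¹) = (Algebra.norm M z)⁻¹ := by
      intro z hz
      rw [eq_comm, inv_eq_iff_eq_inv, eq_comm]
      apply inv_eq_of_mul_eq_one_left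
      rw [← map_mul, mul_inv_cancel₀ hz, map_one]
    have h3 := hinv' _ (hσd σ)
    have h4 := hinv' _ hd0
    rw [h3, h4]
    have h5 : Algebra.norm M (σ (d : Ω)) ≠ 0 := by
      rw [Ne, Algebra.norm_eq_zero_iff]
      exact hσd σ
    have h6 : Algebra.norm M (d : Ω) ≠ 0 := by
      rw [Ne, Algebra.norm_eq_zero_iff]
      exact hd0
    field_simp
    apply mul_left_cancel₀ hc0
    linear_combination -h1
  obtain ⟨l, hl⟩ := (IsGalois.mem_range_algebraMap_iff_fixed (F := L) (algebraMap M Ω e)).2 hefix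
  -- `e` is in `K`
  obtain ⟨E, hE⟩ : ∃ E : IntermediateField K Ω, E = K⟮algebraMap M Ω e⟯ := ⟨_, rfl⟩
  have h7 : E ≤ im K M Ω := by
    rw [hE, IntermediateField.adjoin_simple_le_iff]
    exact mem_im e
  have h8 : E ≤ im K L Ω := by
    rw [hE, IntermediateField.adjoin_simple_le_iff, ← hl]
    exact mem_im l
  have h9 : finrank K E ∣ 2 ^ n := by
    rw [← hM, ← finrank_im (K := K) (L := M) (Ω := Ω)]
    exact IntermediateField.finrank_dvd_of_le_right h7
  have h10 : finrank K E ∣ 3 := by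
    rw [← hL, ← finrank_im (K := K) (L := L) (Ω := Ω)]
    exact IntermediateField.finrank_dvd_of_le_right h8
  have h11 : finrank K E = 1 := by
    have hcop : Nat.Coprime (2 ^ n) 3 := Nat.Coprime.pow_left n (by norm_num)
    exact Nat.eq_one_of_dvd_coprimes hcop h9 h10
  rw [hE, IntermediateField.finrank_adjoin_simple_eq_one_iff, IntermediateField.mem_bot] at h11
  obtain ⟨k, hk⟩ := h11
  have hk' : algebraMap K M k = e := by
    apply (algebraMap M Ω).injective
    rw [← IsScalarTower.algebraMap_apply K M Ω, hk]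
  refine ⟨k, ?_⟩
  apply (algebraMap K M).injective
  rw [map_mul, hk', ← he2]

end

end Pool.Agent.H67R
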