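import Mathlib

/-!
# Multiplicities and the invariants modulo two

A finite 2-group `G` acts on a finitely generated abelian group `E` without elements of order two. If
`(E / 2 E) ^ G` has at most `2 ^ N` elements then `dim Hom_G(V, ℂ ⊗ E) ≤ N dim V`.
-/

set_option autoImplicit false
set_option linter.all false

open Module TensorProduct
open scoped Classical

namespace Pool.Agent.H67R

section

variable {G : Type} [Group G] [Finite G] {E : Type} [AddCommGroup E]

/-- Functionals modulo two which separate the invariants. -/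
theorem exists_fun (hfin : Module.Finite ℤ E) (γ : G → E →+ E)
    (hm : ∀ g h x, γ (g * h) x = γ g (γ h x)) (h1 : ∀ x, γ 1 x = x) (hG : IsPGroup 2 G) (N : ℕ)
    (hN : ∀ (m : ℕ) (P : Fin m → E), (∀ i g, ∃ R, γ g (P i) - P i = 2 • R) →
      (∀ i j, (∃ R, P i - P j = 2 • R) → i = j) → m ≤ 2 ^ N) :
    ∃ φ : Fin N → E →+ ZMod 2, ∀ x : E, (∀ i g, φ i (γ g x) = 0) → ∃ y, x = 2 • y := by
  obtain ⟨D, hD⟩ : ∃ D : AddSubgroup E, ∀ x, x ∈ D ↔ ∃ y, x = 2 • y :=
    ⟨(nsmulAddMonoidHom 2 : E →+ E).range, fun x => ⟨fun ⟨y, hy⟩ => ⟨y, hy.symm⟩,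
      fun ⟨y, hy⟩ => ⟨y, hy.symm⟩⟩⟩
  have h2 : ∀ v : E ⧸ D, 2 • v = 0 := by
    intro v
    obtain ⟨x, rfl⟩ := QuotientAddGroup.mk_surjective v
    have : ((2 • x : E) : E ⧸ D) = 0 := (QuotientAddGroup.eq_zero_iff _).2 ((hD _).2 ⟨x, rfl⟩)
    exact this
  letI : Module (ZMod 2) (E ⧸ D) := AddCommGroup.zmodModule h2
  -- finiteness
  haveI : Module.Finite ℤ (E ⧸ D) := by
    have e : Function.Surjective ((QuotientAddGroup.mk' D).toIntLinearMap) :=
      QuotientAddGroup.mk'_surjective D
    exact Module.Finite.of_surjective _ e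
  haveI hfinD : Finite (E ⧸ D) := by
    apply Module.finite_of_fg_torsion
    intro v
    refine ⟨⟨2, by simp⟩, ?_⟩
    have := h2 v
    rw [← natCast_zsmul] at this
    exact this
  -- the action
  let γ' : G → (E ⧸ D) →+ (E ⧸ D) := fun g => QuotientAddGroup.map D D (γ g) (by
    intro x hx
    obtain ⟨y, rfl⟩ := (hD x).1 hx
    exact (hD _).2 ⟨γ g y, map_nsmul _ _ _⟩)
  have hγ' : ∀ g (x : E), γ' g (x : E ⧸ D) = ((γ g x : E) : E ⧸ D) := fun g x => rfl
  let I : Submodule (ZMod 2) (E ⧸ D) :=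
    { carrier := {v | ∀ g, γ' g v = v}
      add_mem' := by
        intro u v hu hv g
        rw [map_add, hu g, hv g]
      zero_mem' := fun g => map_zero _
      smul_mem' := by
        intro c v hv g
        have : γ' g (c • v) = c • γ' g v := by
          have := ZMod.map_smul (γ' g) c v
          exact this
        rw [this, hv g] }
  have hI : Nat.card I ≤ 2 ^ N := by
    have e := Finite.equivFin I
    choose p hp using fun i : Fin (Nat.card I) => QuotientAddGroup.mk_surjective ((e.symm i : I) : E ⧸ D)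
    refine hN _ p ?_ ?_
    · intro i g
      have h3 := (e.symm i).2 g
      rw [← hp i, hγ'] at h3
      have h4 : ((γ g (p i) - p i : E) : E ⧸ D) = 0 := by
        show ((γ g (p i) : E) : E ⧸ D) - ((p i : E) : E ⧸ D) = 0
        rw [h3, sub_self]
      exact (hD _).1 ((QuotientAddGroup.eq_zero_iff _).1 h4)
    · rintro i j ⟨R, hR⟩
      have h4 : ((p i - p j : E) : E ⧸ D) = 0 := (QuotientAddGroup.eq_zero_iff _).2 ((hD _).2 ⟨R, hR⟩)
      have h5 : ((p i : E) : E ⧸ D) - ((p j : E) : E ⧸ D) = 0 := h4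
      rw [hp, hp, sub_eq_zero] at h5
      exact e.symm.injective (Subtype.ext h5)
  have hrank : finrank (ZMod 2) I ≤ N := by
    have h5 : Nat.card I = 2 ^ finrank (ZMod 2) I := by
      rw [Module.natCard_eq_pow_finrank (K := ZMod 2) (V := I), Nat.card_zmod]
    rw [h5] at hI
    exact (Nat.pow_le_pow_iff_right (by norm_num)).1 hI
  -- functionals on the invariants
  let b := finBasis (ZMod 2) I
  have hψ : ∃ ψ : Fin N → I →ₗ[ZMod 2] ZMod 2, ∀ v : I, (∀ i, ψ i v = 0) → v = 0 := by
    refine ⟨fun i => if h : (i : ℕ) < finrank (ZMod 2) I then b.coord ⟨i, h⟩ else 0, ?_⟩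
    intro v hv
    apply b.ext_elem
    intro j
    have h3 := hv ⟨j.1, j.2.trans_le hrank⟩
    simp only [j.2, dif_pos] at h3
    rw [map_zero, Finsupp.zero_apply]
    exact h3
  obtain ⟨ψ, hψ⟩ := hψ
  choose χ hχ using fun i => LinearMap.exists_extend (ψ i)
  refine ⟨fun i => (χ i).toAddMonoidHom.comp (QuotientAddGroup.mk' D), ?_⟩
  -- the kernel
  let K : AddSubgroup (E ⧸ D) :=
    { carrier := {v | ∀ i g, χ i (γ' g v) = 0}
      add_mem' := by
        intro u v hu hv i g
        rw [map_add, map_add, hu i g, hv i g, add_zero]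
      zero_mem' := fun i g => by rw [map_zero, map_zero]
      neg_mem' := by
        intro v hv i g
        rw [map_neg, map_neg, hv i g, neg_zero] }
  have hm' : ∀ g h v, γ' (g * h) v = γ' g (γ' h v) := by
    intro g h v
    obtain ⟨x, rfl⟩ := QuotientAddGroup.mk_surjective v
    show ((γ (g * h) x : E) : E ⧸ D) = ((γ g (γ h x) : E) : E ⧸ D)
    rw [hm]
  have h1' : ∀ v, γ' 1 v = v := by
    intro v
    obtain ⟨x, rfl⟩ := QuotientAddGroup.mk_surjective v
    show ((γ 1 x : E) : E ⧸ D) = (x : E ⧸ D)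
    rw [h1]
  have hKst : ∀ g, ∀ v ∈ K, γ' g v ∈ K := by
    intro g v hv i h
    rw [← hm']
    exact hv i (h * g)
  letI : MulAction G K :=
    { smul := fun g v => ⟨γ' g v, hKst g v v.2⟩
      one_smul := fun v => Subtype.ext (h1' v)
      mul_smul := fun g h v => Subtype.ext (hm' g h v) }
  have hsm : ∀ (g : G) (v : K), ((g • v : K) : E ⧸ D) = γ' g v := fun g v => rfl
  have hK0 : ∀ v : K, (∀ g : G, g • v = v) → v = 0 := by
    intro v hv
    have hvI : (v : E ⧸ D) ∈ I := fun g => by rw [← hsm, hv g]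
    have h3 := hψ ⟨v, hvI⟩ (fun i => by
      have h4 := congrArg (fun f => f ⟨(v : E ⧸ D), hvI⟩) (hχ i)
      have h5 : χ i (v : E ⧸ D) = ψ i ⟨v, hvI⟩ := h4
      rw [← h5]
      have := v.2 i 1
      rwa [h1'] at this)
    have h6 : (v : E ⧸ D) = 0 := congrArg (fun u : I => (u : E ⧸ D)) h3
    exact Subtype.ext h6
  have hKbot : ∀ v : K, v = 0 := by
    by_contra hcon
    push Not at hcon
    obtain ⟨v₀, hv₀⟩ := hcon
    haveI : Finite K := inferInstance
    have hdvd : 2 ∣ Nat.card K := by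
      have h3 : addOrderOf v₀ = 2 := by
        apply addOrderOf_eq_prime _ hv₀
        exact Subtype.ext (h2 _)
      rw [← h3]
      exact addOrderOf_dvd_natCard v₀
    haveI : Fact (Nat.Prime 2) := ⟨Nat.prime_two⟩
    have h0 : (0 : K) ∈ MulAction.fixedPoints G K := by
      intro g
      exact Subtype.ext (map_zero (γ' g))
    obtain ⟨w, hw, hw0⟩ := hG.exists_fixed_point_of_prime_dvd_card_of_fixed_point K hdvd h0
    exact hw0 (hK0 w hw).symm
  intro x hx
  have hxK : (x : E ⧸ D) ∈ K := fun i g => hx i g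
  have h3 := hKbot ⟨x, hxK⟩
  have h4 : (x : E ⧸ D) = 0 := congrArg Subtype.val h3
  exact (hD _).1 ((QuotientAddGroup.eq_zero_iff _).1 h4)

/-- Integral functionals. -/
theorem exists_int (hfin : Module.Finite ℤ E) (h2t : ∀ x : E, 2 • x = 0 → x = 0)
    (φ : E →+ ZMod 2) : ∃ ψ : E →+ ℤ, ∀ x, ((ψ x : ℤ) : ZMod 2) = φ x := by
  obtain ⟨T, hT⟩ : ∃ T, T = Submodule.torsion ℤ E := ⟨_, rfl⟩
  haveI : IsNoetherian ℤ E := inferInstance
  haveI : Module.Finite ℤ T := inferInstance
  have hTtor : Module.IsTorsion ℤ T := by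
    rw [hT]
    exact Submodule.torsion_isTorsion
  haveI hTfin : Finite T := Module.finite_of_fg_torsion T hTtor
  have hT2 : ∀ t ∈ T, ∃ u ∈ T, 2 • u = t := by
    have hinj : Function.Injective (nsmulAddMonoidHom 2 : T →+ T) := by
      rw [injective_iff_map_eq_zero]
      intro a ha
      apply Subtype.ext
      apply h2t
      have := congrArg Subtype.val ha
      simpa using this
    have hsurj := Finite.surjective_of_injective hinj
    intro t ht
    obtain ⟨u, hu⟩ := hsurj ⟨t, ht⟩
    refine ⟨u, u.2, ?_⟩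
    have := congrArg Subtype.val hu
    simpa using this
  haveI : Module.Finite ℤ (E ⧸ T) := inferInstance
  haveI : Module.IsTorsionFree ℤ (E ⧸ T) := by
    rw [hT]
    infer_instance
  haveI : Module.Free ℤ (E ⧸ T) := Module.free_of_finite_type_torsion_free'
  have hker : T ≤ LinearMap.ker φ.toIntLinearMap := by
    intro t ht
    obtain ⟨u, -, rfl⟩ := hT2 t ht
    rw [LinearMap.mem_ker, map_nsmul, nsmul_eq_mul]
    have : ((2 : ℕ) : ZMod 2) = 0 := by decide
    rw [this, zero_mul]
  obtain ⟨f, hf⟩ := Module.projective_lifting_property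
    ((Int.castAddHom (ZMod 2)).toIntLinearMap) (T.liftQ φ.toIntLinearMap hker)
    ZMod.intCast_surjective
  refine ⟨(f ∘ₗ T.mkQ).toAddMonoidHom, fun x => ?_⟩
  have h3 := congrArg (fun l => l (T.mkQ x)) hf
  exact h3

/-- The embedding up to torsion. -/
theorem exists_emb (hfin : Module.Finite ℤ E) (h2t : ∀ x : E, 2 • x = 0 → x = 0)
    (γ : G → E →+ E)
    (hm : ∀ g h x, γ (g * h) x = γ g (γ h x)) (h1 : ∀ x, γ 1 x = x) (hG : IsPGroup 2 G) (N : ℕ)
    (hN : ∀ (m : ℕ) (P : Fin m → E), (∀ i g, ∃ R, γ g (P i) - P i = 2 • R) →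
      (∀ i j, (∃ R, P i - P j = 2 • R) → i = j) → m ≤ 2 ^ N) :
    ∃ (φ : Fin N → E →+ ℤ) (r : ℤ), r ≠ 0 ∧ ∀ x : E, (∀ i g, φ i (γ g x) = 0) → r • x = 0 := by
  obtain ⟨φ, hφ⟩ := exists_fun hfin γ hm h1 hG N hN
  choose ψ hψ using fun i => exists_int hfin h2t (φ i)
  let W : Submodule ℤ E :=
    { carrier := {x | ∀ i g, ψ i (γ g x) = 0}
      add_mem' := by
        intro u v hu hv i g
        rw [map_add, map_add, hu i g, hv i g, add_zero]
      zero_mem' := fun i g => by rw [map_zero, map_zero]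
      smul_mem' := by
        intro c v hv i g
        rw [map_zsmul, map_zsmul, hv i g, smul_zero] }
  have hW : W ≤ (Ideal.span {(2 : ℤ)}) • W := by
    intro x hx
    obtain ⟨y, rfl⟩ := hφ x (fun i g => by
      rw [← hψ, hx i g, Int.cast_zero])
    have hy : y ∈ W := by
      intro i g
      have h3 := hx i g
      rw [map_nsmul, map_nsmul, nsmul_eq_mul] at h3
      rcases mul_eq_zero.1 h3 with h4 | h4
      · norm_num at h4
      · exact h4
    have h5 : (2 : ℕ) • y = (2 : ℤ) • y := by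
      rw [← natCast_zsmul]
      rfl
    rw [h5]
    exact Submodule.smul_mem_smul (Ideal.mem_span_singleton_self _) hy
  haveI : IsNoetherian ℤ E := inferInstance
  obtain ⟨r, hr, hr0⟩ := Submodule.exists_sub_one_mem_and_smul_eq_zero_of_fg_of_le_smul
    (Ideal.span {(2 : ℤ)}) W (IsNoetherian.noetherian W) hW
  refine ⟨ψ, r, ?_, fun x hx => hr0 x hx⟩
  rintro rfl
  rw [Ideal.mem_span_singleton] at hr
  omega

/-- **The bound for the multiplicities.** -/
theorem rep_bound (hfin : Module.Finite ℤ E) (h2t : ∀ x : E, 2 • x = 0 → x = 0)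
    (γ : G → E →+ E)
    (hm : ∀ g h x, γ (g * h) x = γ g (γ h x)) (h1 : ∀ x, γ 1 x = x) (hG : IsPGroup 2 G) (N : ℕ)
    (hN : ∀ (m : ℕ) (P : Fin m → E), (∀ i g, ∃ R, γ g (P i) - P i = 2 • R) →
      (∀ i j, (∃ R, P i - P j = 2 • R) → i = j) → m ≤ 2 ^ N)
    {V : Type} [AddCommGroup V] [Module ℂ V] [FiniteDimensional ℂ V] (ρ : Representation ℂ G V)
    (H : Submodule ℂ (V →ₗ[ℂ] ℂ ⊗[ℤ] E))
    (hH : ∀ f ∈ H, ∀ g v, f (ρ g v) = LinearMap.baseChange ℂ (γ g).toIntLinearMap (f v)) :
    Module.rank ℂ H ≤ ((N * finrank ℂ V : ℕ) : Cardinal) := by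
  haveI := Fintype.ofFinite G
  obtain ⟨φ, r, hr, hφ⟩ := exists_emb hfin h2t γ hm h1 hG N hN
  let Φ : E →ₗ[ℤ] (Fin N × G → ℤ) := LinearMap.pi fun p =>
    ((φ p.1).comp (γ p.2)).toIntLinearMap
  have hΦ : ∀ x p, Φ x p = φ p.1 (γ p.2 x) := fun x p => rfl
  -- the complexification is injective
  have hinj : Function.Injective (LinearMap.lTensor ℂ Φ) := by
    rw [injective_iff_map_eq_zero]
    intro z hz
    have h3 : Function.Injective (LinearMap.lTensor ℂ (LinearMap.range Φ).subtype) :=
      Module.Flat.lTensor_preserves_injective_linearMap _ (Submodule.injective_subtype _)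
    have h4 : LinearMap.lTensor ℂ Φ =
        LinearMap.lTensor ℂ (LinearMap.range Φ).subtype ∘ₗ LinearMap.lTensor ℂ Φ.rangeRestrict := by
      rw [← LinearMap.lTensor_comp]
      rfl
    have h5 : LinearMap.lTensor ℂ Φ.rangeRestrict z = 0 := by
      apply h3
      rw [map_zero, ← hz, h4]
      rfl
    have h6 : Function.Exact (LinearMap.lTensor ℂ (LinearMap.ker Φ).subtype)
        (LinearMap.lTensor ℂ Φ.rangeRestrict) := by
      apply lTensor_exact
      · intro x
        constructor
        · intro hx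
          refine ⟨⟨x, ?_⟩, rfl⟩
          rw [LinearMap.mem_ker]
          exact congrArg Subtype.val hx
        · rintro ⟨y, rfl⟩
          apply Subtype.ext
          exact y.2
      · exact LinearMap.surjective_rangeRestrict _
    obtain ⟨u, rfl⟩ := (h6 z).1 h5
    clear hz h5
    induction u using TensorProduct.induction_on with
    | zero => rw [map_zero]
    | tmul c x =>
      rw [LinearMap.lTensor_tmul]
      have hx : r • (x : E) = 0 := by
        apply hφ
        intro i g
        have := x.2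
        rw [LinearMap.mem_ker] at this
        have h7 := congrFun this (i, g)
        exact h7
      have hrC : (r : ℂ) ≠ 0 := by exact_mod_cast hr
      have e : c = r • (c / r) := by
        rw [zsmul_eq_mul]
        field_simp
      rw [e, TensorProduct.smul_tmul]
      show (c / r) ⊗ₜ[ℤ] (r • (x : E)) = 0
      rw [hx, TensorProduct.tmul_zero]
    | add x y hx hy => rw [map_add, hx, hy, add_zero]
  -- coordinates
  let cf : (Fin N × G) → (ℂ ⊗[ℤ] E) →ₗ[ℂ] ℂ := fun p =>
    (TensorProduct.AlgebraTensorModule.rid ℤ ℂ ℂ).toLinearMap ∘ₗ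
      LinearMap.baseChange ℂ ((φ p.1).comp (γ p.2)).toIntLinearMap
  have hcf : ∀ p z x, cf p (z ⊗ₜ[ℤ] x) = z * (φ p.1 (γ p.2 x) : ℂ) := by
    intro p z x
    show TensorProduct.AlgebraTensorModule.rid ℤ ℂ ℂ (z ⊗ₜ[ℤ] (φ p.1 (γ p.2 x))) = _
    rw [TensorProduct.AlgebraTensorModule.rid_tmul, zsmul_eq_mul, mul_comm]
  have hcf0 : ∀ z, (∀ p, cf p z = 0) → z = 0 := by
    intro z hz
    apply hinj
    rw [map_zero]
    apply (TensorProduct.piScalarRight ℤ ℤ ℂ (Fin N × G)).injective
    rw [map_zero]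
    funext p
    have h3 : ∀ z, (TensorProduct.piScalarRight ℤ ℤ ℂ (Fin N × G)) (LinearMap.lTensor ℂ Φ z) p =
        cf p z := by
      intro z
      induction z using TensorProduct.induction_on with
      | zero => simp
      | tmul c x =>
        rw [LinearMap.lTensor_tmul, hcf, TensorProduct.piScalarRight_apply,
          TensorProduct.piScalarRightHom_tmul]
        show Φ x p • c = _
        rw [hΦ, zsmul_eq_mul, mul_comm]
      | add x y hx hy =>
        rw [map_add, map_add, map_add, Pi.add_apply, hx, hy]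
    rw [h3]
    exact hz p
  have hcfg : ∀ i g z, cf (i, g) z = cf (i, 1) (LinearMap.baseChange ℂ (γ g).toIntLinearMap z) := by
    intro i g z
    induction z using TensorProduct.induction_on with
    | zero => simp
    | tmul c x =>
      rw [LinearMap.baseChange_tmul, hcf, hcf]
      show c * (φ i (γ g x) : ℂ) = c * (φ i (γ 1 (γ g x)) : ℂ)
      rw [h1]
    | add x y hx hy =>
      rw [map_add, map_add, map_add, hx, hy]
  -- the map
  let Θ : H →ₗ[ℂ] (Fin N → V →ₗ[ℂ] ℂ) :=
    { toFun := fun f i => cf (i, 1) ∘ₗ (f : V →ₗ[ℂ] ℂ ⊗[ℤ] E)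
      map_add' := by
        intro f f'
        funext i
        ext v
        simp
      map_smul' := by
        intro c f
        funext i
        ext v
        simp }
  have hΘ : Function.Injective Θ := by
    rw [injective_iff_map_eq_zero]
    intro f hf
    apply Subtype.ext
    ext v
    apply hcf0
    rintro ⟨i, g⟩
    rw [hcfg, ← hH f f.2 g v]
    have h3 := congrFun hf i
    have h4 := congrArg (fun l => l (ρ g v)) h3
    exact h4
  have h3 := LinearMap.rank_le_of_injective Θ hΘ
  refine h3.trans ?_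
  have h4 : Module.rank ℂ (Fin N → V →ₗ[ℂ] ℂ) = ((N * finrank ℂ V : ℕ) : Cardinal) := by
    rw [← Module.finrank_eq_rank, Module.finrank_pi_fintype]
    simp [Module.finrank_linearMap]
  rw [h4]

end

end Pool.Agent.H67R
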