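import Pool.Agent.H67R.Count
import Pool.Agent.H67R.Rep

/-!
# The bound for the multiplicities
-/

set_option autoImplicit false
set_option linter.all false

open NumberField Filter
open Pool.Agent.H30EV
open scoped Classical TensorProduct

namespace Pool.Agent.H67R

open Pool.Agent.N922.PQ
open Pool.Agent.H30GR (ramPrimes ram_fin nz no_zero cube3)
open Pool.Agent.N874.PP (sW)
open Pool.Agent.TH115.GD (Pt)

theorem irr_good {A B : ℤ} {p : ℕ} (hp : p.Prime) (hp2 : p ≠ 2) (hirr : (p : ℤ) ∈ irr A B) :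
    ¬ (p : ℤ) ∣ 4 * A ^ 3 + 27 * B ^ 2 := by
  intro hdvd'
  haveI : Fact p.Prime := ⟨hp⟩
  -- a double zero
  have h0 : (4 : ZMod p) * (A : ZMod p) ^ 3 + 27 * (B : ZMod p) ^ 2 = 0 := by
    have := (ZMod.intCast_zmod_eq_zero_iff_dvd _ p).2 hdvd'
    push_cast at this
    exact this
  have h2 : (2 : ZMod p) ≠ 0 := by
    intro h
    have h4 : ((2 : ℕ) : ZMod p) = 0 := by exact_mod_cast h
    rw [ZMod.natCast_eq_zero_iff] at h4
    rcases (Nat.dvd_prime Nat.prime_two).1 h4 with h5 | h5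
    · exact hp.ne_one h5
    · exact hp2 h5
  have hz : ∃ x : ZMod p, x ^ 3 + (A : ZMod p) * x + (B : ZMod p) = 0 := by
    by_cases hA0 : (A : ZMod p) = 0
    · by_cases h3p : (3 : ZMod p) = 0
      · have h3' : ((3 : ℕ) : ZMod p) = 0 := by exact_mod_cast h3p
        rw [ZMod.natCast_eq_zero_iff, Nat.prime_dvd_prime_iff_eq hp Nat.prime_three] at h3'
        subst h3'
        exfalso
        -- `x ^ 3 = x` modulo three
        apply hirr.2 (-B)
        rw [← ZMod.intCast_zmod_eq_zero_iff_dvd]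
        push_cast
        rw [hA0, zero_mul, add_zero]
        exact cube3 _
      · have hB0 : (B : ZMod p) = 0 := by
          rw [hA0] at h0
          have h5 : (3 : ZMod p) ^ 3 * (B : ZMod p) ^ 2 = 0 := by linear_combination h0
          rcases mul_eq_zero.1 h5 with h6 | h6
          · exact absurd (pow_eq_zero_iff (by norm_num) |>.1 h6) h3p
          · exact pow_eq_zero_iff (by norm_num) |>.1 h6
        exact ⟨0, by rw [hA0, hB0]; ring⟩
    · refine ⟨-(3 * B) / (2 * A), ?_⟩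
      field_simp
      linear_combination (-(B : ZMod p)) * h0
  obtain ⟨x, hx⟩ := hz
  obtain ⟨z, rfl⟩ := ZMod.intCast_surjective x
  apply hirr.2 z
  rw [← ZMod.intCast_zmod_eq_zero_iff_dvd]
  push_cast
  exact hx

theorem pts_two {F : Type} [Field F] [CharZero F] {A B : ℤ}
    (hr : ∀ x : F, x ^ 3 + (A : F) * x + (B : F) ≠ 0) (P : Pt (sW (A : ℚ) (B : ℚ)) F)
    (hP : 2 • P = 0) : P = 0 := by
  rcases P with _ | ⟨x, y, h⟩
  · rfl
  exfalso
  have h1 : (WeierstrassCurve.Affine.Point.some x y h : Pt (sW (A : ℚ) (B : ℚ)) F) +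
      WeierstrassCurve.Affine.Point.some x y h = 0 := by
    rw [← two_nsmul]
    exact hP
  have hy : y = 0 := by
    by_contra hy
    have h2 := h1
    rw [WeierstrassCurve.Affine.Point.add_self_of_Y_ne (by
      intro h3
      apply hy
      have e : ((sW (A : ℚ) (B : ℚ)).baseChange F).toAffine.negY x y = -y := by
        simp [WeierstrassCurve.Affine.negY, sW, WeierstrassCurve.baseChange]
      rw [e] at h3
      have h4 : (2 : F) * y = 0 := by linear_combination h3
      exact (mul_eq_zero.1 h4).resolve_left two_ne_zero)] at h2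
    exact absurd h2 (by exact WeierstrassCurve.Affine.Point.some_ne_zero _)
  have h3 := h.1
  rw [WeierstrassCurve.Affine.equation_iff] at h3
  simp only [sW, WeierstrassCurve.baseChange, WeierstrassCurve.map, WeierstrassCurve.toAffine,
    map_zero, map_intCast] at h3
  rw [hy] at h3
  exact hr x (by linear_combination -h3)

/-- The bound for one field. -/
theorem mult_bd {F : Type} [Field F] [NumberField F] [IsGalois ℚ F] {n : ℕ}
    (hn : Module.finrank ℚ F = 2 ^ n) {A B : ℤ} (hd : 4 * A ^ 3 + 27 * B ^ 2 ≠ 0)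
    (hr : ∀ x : F, x ^ 3 + (A : F) * x + (B : F) ≠ 0) {N : ℕ} (h : InvBd F A B N)
    {V : Type} [AddCommGroup V] [Module ℂ V] [FiniteDimensional ℂ V]
    (ρ : Representation ℂ (F ≃ₐ[ℚ] F) V)
    (H : Submodule ℂ (V →ₗ[ℂ] ℂ ⊗[ℤ] Pt (sW (A : ℚ) (B : ℚ)) F))
    (hH : ∀ f ∈ H, ∀ g v, f (ρ g v) = LinearMap.baseChange ℂ
      (Pool.Agent.TH115.GD.act (sW (A : ℚ) (B : ℚ)) (AlgEquiv.toAlgHom g)).toIntLinearMap (f v)) :
    Module.rank ℂ H ≤ ((N * Module.finrank ℂ V : ℕ) : Cardinal) := by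
  have hfin : Module.Finite ℤ (Pt (sW (A : ℚ) (B : ℚ)) F) := by
    rw [Module.Finite.iff_addGroup_fg]
    refine Pool.Agent.Q286.EQ.mordell_weil F ((sW (A : ℚ) (B : ℚ)).baseChange F) ?_
    have e : ((sW (A : ℚ) (B : ℚ)).baseChange F).Δ = -16 * (4 * (A : F) ^ 3 + 27 * (B : F) ^ 2) := by
      simp only [sW, WeierstrassCurve.baseChange, WeierstrassCurve.map, WeierstrassCurve.Δ,
        WeierstrassCurve.b₂, WeierstrassCurve.b₄, WeierstrassCurve.b₆, WeierstrassCurve.b₈,
        map_zero, map_intCast]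
      ring
    rw [e]
    have h1 : (4 * (A : F) ^ 3 + 27 * (B : F) ^ 2) ≠ 0 := by exact_mod_cast hd
    exact mul_ne_zero (by norm_num) h1
  have hG : IsPGroup 2 (F ≃ₐ[ℚ] F) := by
    apply IsPGroup.of_card (n := n)
    rw [IsGalois.card_aut_eq_finrank, hn]
  exact rep_bound hfin (pts_two hr)
    (fun g => Pool.Agent.TH115.GD.act (sW (A : ℚ) (B : ℚ)) (AlgEquiv.toAlgHom g))
    (fun g h x => by
      show _ = Pool.Agent.TH115.GD.act (sW (A : ℚ) (B : ℚ)) (AlgEquiv.toAlgHom g)
        (Pool.Agent.TH115.GD.act (sW (A : ℚ) (B : ℚ)) (AlgEquiv.toAlgHom h) x)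
      rw [Pool.Agent.TH115.GD.act_act]
      rfl)
    (fun x => by
      rcases x with _ | ⟨x, y, h⟩ <;> rfl)
    hG N h ρ H hH

end Pool.Agent.H67R
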