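import Pool.Agent.H30GR.Base
import Pool.Agent.H30EV.Ud

/-!
# The local condition at `2` has index two; the relaxed groups at the base
-/

set_option autoImplicit false
set_option linter.all false

open Polynomial IsDedekindDomain NumberField Module
open scoped Classical IntermediateField

namespace Pool.Agent.H67R

open Pool.Agent.N922.PQ
open Pool.Agent.H30EV
open Pool.Agent.H30GR
open Pool.Agent.N874.PP (Tup chA chB gq tau Two Ev Sq1 U0)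
open Pool.Agent.N951.PV (pt2 pl_sq cast_congr pol_map)

section two

variable {L : Type} [Field L] [NumberField L] {a b : ℤ} {θ : L}

theorem loc2_nf (hc : IsCub a b θ) (ha : a % 4 = 3) (hb : b % 4 = 3) {x c : L} {g₁ g₂ : ℤ}
    {r s t : ℚ} (hr : ‖(r : ℚ_[2])‖ ≤ 1) (hs : ‖(s : ℚ_[2])‖ ≤ 1) (ht : ‖(t : ℚ_[2])‖ ≤ 1)
    (hα : x = c ^ 2 * aeval θ (pol ℚ g₁ g₂ ((g₁ * (1 + g₂) : ℤ) + 2 * r) s t))
    (hg : Even g₂) : Loc2 a b θ x := by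
  have hao : Odd a := by
    rw [Int.odd_iff]
    omega
  have hab : (4 : ℤ) ∣ a - b := by omega
  obtain ⟨k, hk⟩ := hc.exists_poly c
  set P : ℚ[X] := pol ℚ g₁ g₂ ((g₁ * (1 + g₂) : ℤ) + 2 * r) s t with hP
  have e1 : aeval θ (k ^ 2 * P) = x := by
    rw [map_mul, map_pow, hk, hα]
  have hg' : (Even g₁ ∧ Even g₂) ∨ ((4 : ℤ) ∣ 2 * g₁ - (1 - a) ∧ (4 : ℤ) ∣ 2 * g₂ - (3 - a)) := by
    rcases Int.even_or_odd g₁ with h1 | h1
    · exact Or.inl ⟨h1, hg⟩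
    · right
      obtain ⟨m, hm⟩ := h1
      obtain ⟨m', hm'⟩ := hg
      constructor <;> omega
  have h6 := pt2 a b hao hab g₁ g₂ ((((g₁ * (1 + g₂) : ℤ) : ℚ) + 2 * r : ℚ) : ℚ_[2]) s t (by
    have e : ((((g₁ * (1 + g₂) : ℤ) : ℚ) + 2 * r : ℚ) : ℚ_[2]) - ((g₁ * (1 + g₂) : ℤ) : ℚ_[2]) =
        2 * (r : ℚ_[2]) := by
      push_cast
      ring
    rw [e, norm_mul]
    have e3 : ‖(2 : ℚ_[2])‖ = 1 / 2 := by
      have := Padic.norm_p (p := 2)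
      rw [Nat.cast_ofNat] at this
      rw [this]
      norm_num
    rw [e3]
    linarith) hs ht hg'
  rw [← pol_map, ← hP] at h6
  intro h' hh'
  have h7 : PL ℚ_[2] a b ((k.map (algebraMap ℚ ℚ_[2])) ^ 2 * P.map (algebraMap ℚ ℚ_[2])) :=
    pl_sq _ h6
  rw [← Polynomial.map_pow, ← Polynomial.map_mul] at h7
  exact Pool.Agent.N951.PV.pl_congr (cast_congr hc ℚ_[2] (e1.trans hh'.symm)) h7

/-- Two elements which are not in the local image have their product in it. -/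
theorem loc2_or (hc : IsCub a b θ) (ha : a % 4 = 3) (hb : b % 4 = 3) {x y : L} (hx : x ≠ 0)
    (hy : y ≠ 0) (hNx : IsSquare (Algebra.norm ℚ x)) (hNy : IsSquare (Algebra.norm ℚ y)) :
    Loc2 a b θ x ∨ Loc2 a b θ y ∨ Loc2 a b θ (x * y) := by
  have hao : Odd a := by
    rw [Int.odd_iff]
    omega
  have hbo : Odd b := by
    rw [Int.odd_iff]
    omega
  have hnd : ∀ q : ℚ, Odd q.den → ‖(q : ℚ_[2])‖ ≤ 1 := by
    intro q hq
    apply Padic.norm_rat_le_one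
    intro h
    exact (Nat.not_even_iff_odd.2 hq) (even_iff_two_dvd.2 h)
  obtain ⟨c, g₁, g₂, r, s, t, hc0, hr, hs, ht, hα⟩ :=
    Pool.Agent.N907.PV.t_NF2 L a b θ hc hao hbo x hx hNx
  obtain ⟨c', g₁', g₂', r', s', t', hc0', hr', hs', ht', hα'⟩ :=
    Pool.Agent.N907.PV.t_NF2 L a b θ hc hao hbo y hy hNy
  by_cases h1 : Even g₂
  · exact Or.inl (loc2_nf hc ha hb (hnd r hr) (hnd s hs) (hnd t ht) hα h1)
  by_cases h2 : Even g₂'
  · exact Or.inr (Or.inl (loc2_nf hc ha hb (hnd r' hr') (hnd s' hs') (hnd t' ht') hα' h2))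
  right
  right
  obtain ⟨β, hβ⟩ : ∃ β : ℤ, b = 2 * β - 1 := ⟨(b + 1) / 2, by omega⟩
  obtain ⟨R, hR⟩ : ∃ R : ℚ, R = r + r' - β * (g₁ * g₂' + g₁' * g₂) -
      b * (g₁ * t' + g₂ * s' + g₁' * t + g₂' * s) +
      2 * (((g₁ * (1 + g₂) : ℤ) + 2 * r) * ((g₁' * (1 + g₂') : ℤ) + 2 * r') -
        b * (s * t' + t * s')) := ⟨_, rfl⟩
  obtain ⟨S, hS⟩ : ∃ S : ℚ, S = s + s' + (-a * (g₁ * g₂' + g₁' * g₂) - b * (g₂ * g₂')) +
      2 * (g₁ * ((g₁' * (1 + g₂') : ℤ) + 2 * r') - a * (g₁ * t' + g₂ * s') - b * (g₂ * t')) +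
      2 * (g₁' * ((g₁ * (1 + g₂) : ℤ) + 2 * r) - a * (g₁' * t + g₂' * s) - b * (g₂' * t)) +
      4 * (((g₁ * (1 + g₂) : ℤ) + 2 * r) * s' + s * ((g₁' * (1 + g₂') : ℤ) + 2 * r') -
        a * (s * t' + t * s') - b * (t * t')) := ⟨_, rfl⟩
  obtain ⟨T, hT⟩ : ∃ T : ℚ, T = t + t' + (g₁ * g₁' - a * (g₂ * g₂')) +
      2 * (g₁ * s' + g₂ * ((g₁' * (1 + g₂') : ℤ) + 2 * r') - a * (g₂ * t')) +
      2 * (g₁' * s + g₂' * ((g₁ * (1 + g₂) : ℤ) + 2 * r) - a * (g₂' * t)) +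
      4 * (((g₁ * (1 + g₂) : ℤ) + 2 * r) * t' + s * s' + t * ((g₁' * (1 + g₂') : ℤ) + 2 * r') -
        a * (t * t')) := ⟨_, rfl⟩
  obtain ⟨rz, hrz⟩ : ∃ z : ℤ_[2], (z : ℚ_[2]) = r := ⟨⟨r, hnd r hr⟩, rfl⟩
  obtain ⟨sz, hsz⟩ : ∃ z : ℤ_[2], (z : ℚ_[2]) = s := ⟨⟨s, hnd s hs⟩, rfl⟩
  obtain ⟨tz, htz⟩ : ∃ z : ℤ_[2], (z : ℚ_[2]) = t := ⟨⟨t, hnd t ht⟩, rfl⟩
  obtain ⟨rz', hrz'⟩ : ∃ z : ℤ_[2], (z : ℚ_[2]) = r' := ⟨⟨r', hnd r' hr'⟩, rfl⟩
  obtain ⟨sz', hsz'⟩ : ∃ z : ℤ_[2], (z : ℚ_[2]) = s' := ⟨⟨s', hnd s' hs'⟩, rfl⟩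
  obtain ⟨tz', htz'⟩ : ∃ z : ℤ_[2], (z : ℚ_[2]) = t' := ⟨⟨t', hnd t' ht'⟩, rfl⟩
  have c2 : ((2 : ℤ_[2]) : ℚ_[2]) = 2 := rfl
  have c4 : ((4 : ℤ_[2]) : ℚ_[2]) = 4 := rfl
  have hRn : ‖(R : ℚ_[2])‖ ≤ 1 := by
    have e : (R : ℚ_[2]) = ((rz + rz' - β * (g₁ * g₂' + g₁' * g₂) -
      b * (g₁ * tz' + g₂ * sz' + g₁' * tz + g₂' * sz) +
      2 * (((g₁ * (1 + g₂) : ℤ) + 2 * rz) * ((g₁' * (1 + g₂') : ℤ) + 2 * rz') -
        b * (sz * tz' + tz * sz')) : ℤ_[2]) : ℚ_[2]) := by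
      rw [hR]
      push_cast
      rw [hrz, hsz, htz, hrz', hsz', htz']
      simp only [c2, c4]
    rw [e]
    exact PadicInt.norm_le_one _
  have hSn : ‖(S : ℚ_[2])‖ ≤ 1 := by
    have e : (S : ℚ_[2]) = ((sz + sz' + (-a * (g₁ * g₂' + g₁' * g₂) - b * (g₂ * g₂')) +
      2 * (g₁ * ((g₁' * (1 + g₂') : ℤ) + 2 * rz') - a * (g₁ * tz' + g₂ * sz') - b * (g₂ * tz')) +
      2 * (g₁' * ((g₁ * (1 + g₂) : ℤ) + 2 * rz) - a * (g₁' * tz + g₂' * sz) - b * (g₂' * tz)) +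
      4 * (((g₁ * (1 + g₂) : ℤ) + 2 * rz) * sz' + sz * ((g₁' * (1 + g₂') : ℤ) + 2 * rz') -
        a * (sz * tz' + tz * sz') - b * (tz * tz')) : ℤ_[2]) : ℚ_[2]) := by
      rw [hS]
      push_cast
      rw [hrz, hsz, htz, hrz', hsz', htz']
      simp only [c2, c4]
    rw [e]
    exact PadicInt.norm_le_one _
  have hTn : ‖(T : ℚ_[2])‖ ≤ 1 := by
    have e : (T : ℚ_[2]) = ((tz + tz' + (g₁ * g₁' - a * (g₂ * g₂')) +
      2 * (g₁ * sz' + g₂ * ((g₁' * (1 + g₂') : ℤ) + 2 * rz') - a * (g₂ * tz')) +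
      2 * (g₁' * sz + g₂' * ((g₁ * (1 + g₂) : ℤ) + 2 * rz) - a * (g₂' * tz)) +
      4 * (((g₁ * (1 + g₂) : ℤ) + 2 * rz) * tz' + sz * sz' + tz * ((g₁' * (1 + g₂') : ℤ) + 2 * rz') -
        a * (tz * tz')) : ℤ_[2]) : ℚ_[2]) := by
      rw [hT]
      push_cast
      rw [hrz, hsz, htz, hrz', hsz', htz']
      simp only [c2, c4]
    rw [e]
    exact PadicInt.norm_le_one _
  refine loc2_nf (c := c * c') (g₁ := g₁ + g₁') (g₂ := g₂ + g₂') hc ha hb hRn hSn hTn ?_ ?_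
  · rw [hα, hα', mul_pow]
    have key : aeval θ (pol ℚ g₁ g₂ ((g₁ * (1 + g₂) : ℤ) + 2 * r) s t) *
        aeval θ (pol ℚ g₁' g₂' ((g₁' * (1 + g₂') : ℤ) + 2 * r') s' t') =
        aeval θ (pol ℚ (g₁ + g₁') (g₂ + g₂') (((g₁ + g₁') * (1 + (g₂ + g₂')) : ℤ) + 2 * R) S T) := by
      have hroot := hc.root
      rw [hR, hS, hT]
      unfold pol
      simp only [map_add, map_mul, map_one, map_pow, aeval_C, aeval_X, map_intCast, map_ofNat,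
        eq_ratCast]
      subst hβ
      push_cast
      push_cast at hroot
      linear_combination (4 * ((g₁ : L) * g₂' + g₁' * g₂ + g₂ * g₂' * θ) +
        8 * ((g₁ : L) * t' + g₂ * s' + g₂ * t' * θ) + 8 * ((g₁' : L) * t + g₂' * s + g₂' * t * θ) +
        16 * ((s : L) * t' + t * s' + t * t' * θ)) * hroot
    linear_combination (c ^ 2 * c' ^ 2) * key
  · rw [Int.not_even_iff_odd] at h1 h2
    exact h1.add_odd h2

end two

section base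

variable {L : Type} [Field L] [NumberField L] {a b : ℤ} {θ : L} {X : ℕ} {S T J : Finset ℤ}
  {s A B : ℤ → ℤ}

/-- The dimension. -/
noncomputable def dm (a b : ℤ) (R : Finset ℕ) : ℕ := ∑ l ∈ R, Nat.log 2 (1 + nz a b l)

/-- The relaxed Selmer group at the base. -/
theorem base_covL (H : Parts2) (hI : S_INT) (hc : IsCub a b θ) (hS : GoodS S s)
    (hT : GoodT T A B) (hF : Fam X S s T A B a b) (hJ : J ⊆ S) (hsel : HSel a b J θ)
    {R : Finset ℕ} (hR : ∀ l ∈ R, l.Prime) :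
    Cov ℚ L (C0 a b J R θ) (2 ^ dm a b R) := by
  choose! D hD1 hD2 using fun l (hl : l ∈ R) => prime_data (L := L) hI hc hF.sq (hR l hl)
  let E := R.biUnion D
  have hE : 2 ^ E.card ≤ 2 ^ dm a b R := by
    refine Nat.pow_le_pow_right (by norm_num) (Finset.card_biUnion_le.trans ?_)
    refine Finset.sum_le_sum fun l hl => ?_
    exact Nat.le_log_of_pow_le (by norm_num) (hD1 l hl)
  let P : Finset (HeightOneSpectrum (𝓞 L)) → L → Prop := fun t x =>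
    x ≠ 0 ∧ C0 a b J R θ x ∧ IsSquare (Algebra.norm ℚ x) ∧ (E.filter fun 𝔓 => ¬ Ev 𝔓 x) = t
  let g : Finset (HeightOneSpectrum (𝓞 L)) → L := fun t =>
    if h : ∃ x, P t x then h.choose else 0
  refine ⟨E.powerset.image g, ?_, fun x hx hCx hN => ?_⟩
  · refine (Finset.card_image_le.trans ?_).trans hE
    rw [Finset.card_powerset]
  · obtain ⟨t, ht⟩ : ∃ t, t = E.filter fun 𝔓 => ¬ Ev 𝔓 x := ⟨_, rfl⟩
    have hex : ∃ x, P t x := ⟨x, hx, hCx, hN, ht.symm⟩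
    have hg : P t (g t) := by
      simp only [g, dif_pos hex]
      exact hex.choose_spec
    obtain ⟨g0, g1, g2, g3⟩ := hg
    refine ⟨g t, Finset.mem_image_of_mem _ (Finset.mem_powerset.2 ?_), g0, ?_⟩
    · rw [ht]
      exact Finset.filter_subset _ _
    have hNxy : IsSquare (Algebra.norm ℚ (x * g t)) := by
      rw [map_mul]
      exact hN.mul g2
    refine c0_sq H hc hF hsel (mul_ne_zero hx g0) hNxy
      (c0_mul H hc hS hT hF hJ hx g0 hCx g1) fun l hl 𝔓 h𝔓 => ?_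
    refine hD2 l hl (x * g t) (mul_ne_zero hx g0) hNxy (fun 𝔓' h𝔓' => ?_) 𝔓 h𝔓
    refine ev_mul_iff 𝔓' hx g0 ?_
    have hmE : 𝔓' ∈ E := Finset.mem_biUnion.2 ⟨l, hl, h𝔓'⟩
    have h1 : (𝔓' ∈ E.filter fun 𝔓 => ¬ Ev 𝔓 x) ↔ (𝔓' ∈ E.filter fun 𝔓 => ¬ Ev 𝔓 (g t)) := by
      rw [g3, ht]
    rw [Finset.mem_filter, Finset.mem_filter] at h1
    tauto

/-- No condition at `2`. -/
theorem base_covR (H : Parts2) (hI : S_INT) (hc : IsCub a b θ) (ha4 : a % 4 = 3) (hb4 : b % 4 = 3)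
    (hS : GoodS S s) (hT : GoodT T A B) (hF : Fam X S s T A B a b) (hJ : J ⊆ S)
    (hsel : HSel a b J θ) {R : Finset ℕ} (hR : ∀ l ∈ R, l.Prime) :
    Cov ℚ L (Cs (𝓞 L) J (irr a b ∪ zs R) θ) (2 ^ (1 + dm a b R)) := by
  obtain ⟨F, hF1, hF2⟩ := base_covL H hI hc hS hT hF hJ hsel hR
  by_cases hex : ∃ y : L, y ≠ 0 ∧ Cs (𝓞 L) J (irr a b ∪ zs R) θ y ∧
      IsSquare (Algebra.norm ℚ y) ∧ ¬ Loc2 a b θ y
  · obtain ⟨y, hy0, hyC, hyN, hy2⟩ := hex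
    refine ⟨F ∪ F.image (fun r => y * r), ?_, ?_⟩
    · refine (Finset.card_union_le _ _).trans ?_
      rw [pow_add, pow_one, two_mul]
      exact Nat.add_le_add hF1 (Finset.card_image_le.trans hF1)
    · intro x hx hCx hN
      by_cases h2 : Loc2 a b θ x
      · obtain ⟨r, hr, hr0, hs⟩ := hF2 x hx ⟨hCx, h2⟩ hN
        exact ⟨r, Finset.mem_union_left _ hr, hr0, hs⟩
      · have h3 : Loc2 a b θ (x * y) := by
          rcases loc2_or hc ha4 hb4 hx hy0 hN hyN with h | h | h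
          · exact absurd h h2
          · exact absurd h hy2
          · exact h
        have hCxy : Cs (𝓞 L) J (irr a b ∪ zs R) θ (x * y) := by
          refine cs_mul H.p.cls (fun Q hQ => ⟨(hS Q (hJ hQ)).1.2,
            not_dvd_two (hS Q (hJ hQ)).2.1 (hS Q (hJ hQ)).1.1 (hS Q (hJ hQ)).1.2⟩)
            (fun Q hQ 𝔓 h1 h2 => ?_) hx hy0 hCx hyC
          obtain ⟨𝔓₁, 𝔮, h3, h4, h5, h7, h8, h9⟩ := H.p.exq L (𝓞 L) a b θ hc hF.sq Q
            (hS Q (hJ hQ)).1.2 (hF.rb Q (hJ hQ)) (fam_ns hS hF (hJ hQ))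
          rcases h9 𝔓 h1 with h | h
          · rw [h] at h2
            exact absurd h2 h5.ne
          · rw [h]
            exact h8
        obtain ⟨r, hr, hr0, hs⟩ := hF2 (x * y) (mul_ne_zero hx hy0) ⟨hCxy, h3⟩ (by
          rw [map_mul]
          exact hN.mul hyN)
        refine ⟨y * r, Finset.mem_union_right _ (Finset.mem_image_of_mem _ hr),
          mul_ne_zero hy0 hr0, ?_⟩
        rwa [← mul_assoc]
  · push Not at hex
    refine ⟨F, hF1.trans (Nat.pow_le_pow_right (by norm_num) (by omega)), ?_⟩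
    intro x hx hCx hN
    exact hF2 x hx ⟨hCx, hex x hx hCx hN⟩ hN

end base

end Pool.Agent.H67R
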